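import Pool.Agent.Y703.CX.Stm

/-!
# Project JC: the joint exact proportion of the cubic twists

`T` is a fixed finite set of primes `≡ 1` modulo `9`, and `m i`, `i < M`, are `M` different exponent
vectors modulo `3` on `T`, extended by `1`. For the proportion `c3 ^ M` of the sets `S` of the class that
contain `T` all the weighted systems are good. Statements of the parts; everything that is not defined
here is in `Pool.Agent.Y703.CX.Stm`.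
-/

set_option autoImplicit false
set_option linter.unusedVariables false

open scoped Classical

namespace Pool.Agent.X253.JC

open Finset
open Pool.Agent.Y703.CX

/-- the solutions of the weighted linear system attached to a set of primes -/
def SolW (e : ℕ → ZMod 3) (S : Finset ℕ) (c : ℕ → ZMod 3) : Prop :=
  ∀ p ∈ S, p % 3 = 1 → e p ≠ 0 → ∑ q ∈ S, e q * (c q - c p) * lam p q = 0

/-- good with respect to the weights `e` -/
def GdW (e : ℕ → ZMod 3) (S : Finset ℕ) : Prop :=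
  ∀ c, SolW e S c → ∀ p ∈ S, e p ≠ 0 → ∀ q ∈ S, e q ≠ 0 → c p = c q

/-- jointly good -/
def GdJ {M : ℕ} (m : Fin M → ℕ → ZMod 3) (S : Finset ℕ) : Prop := ∀ i, GdW (m i) S

/-- the exponent vectors -/
structure OkM {M : ℕ} (T : Finset ℕ) (m : Fin M → ℕ → ZMod 3) : Prop where
  pr : ∀ t ∈ T, t.Prime ∧ t % 3 = 1
  nine : ∀ t ∈ T, t % 9 = 1
  one : ∀ i u, u ∉ T → m i u = 1
  ne : ∀ i j, i ≠ j → ∃ t ∈ T, m i t ≠ m j t

/-- FINAL: the proportion of the jointly good sets -/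
def S_JDQ : Prop := ∀ (M : ℕ) (T : Finset ℕ) (m : Fin M → ℕ → ZMod 3), OkM T m →
  Filter.Tendsto (fun X : ℕ => (((SS X).filter fun S => T ⊆ S ∧ GdJ m S).card : ℝ) /
    (((SS X).filter fun S => T ⊆ S).card : ℝ)) Filter.atTop (nhds (c3 ^ M))

/-- all solutions of the block system with the mask `m` are constant -/
def GdM {U J : Type} [Fintype U] [Fintype J] (m : U → ZMod 3) (U1 : Finset U) (J1 : Finset J)
    (A : U → U → ZMod 3) (B : U → J → ZMod 3) (C : J → U → ZMod 3) (R : J → J → ZMod 3) : Prop :=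
  ∀ (c : U → ZMod 3) (d : J → ZMod 3),
    (∀ u ∈ U1, m u ≠ 0 → ∑ v, m v * (c v - c u) * A u v + ∑ l, (d l - c u) * B u l = 0) →
    (∀ k ∈ J1, ∑ u, m u * (c u - d k) * C k u + ∑ l, (d l - d k) * R k l = 0) →
    ∃ t : ZMod 3, (∀ u, m u ≠ 0 → c u = t) ∧ ∀ l, d l = t

/-- JC-LA: the probability that a random completion is good for all the masks. -/
def S_JLA : Prop := ∀ (M : ℕ) (ε : ℝ), 0 < ε → ∃ R : ℕ, ∀ (U J : Type) [Fintype U] [Fintype J]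
  (U1 : Finset U) (J1 : Finset J) (ks : J),
  Fintype.card U + Fintype.card J = U1.card + J1.card + 1 →
  (∀ l, l ∉ J1 → l = ks) → ∀ (m : Fin M → U → ZMod 3), (∀ i u, u ∉ U1 → m i u ≠ 0) →
  ∀ (A : U → U → ZMod 3) (B : U → J → ZMod 3) (C : J → U → ZMod 3),
  (∀ v : U → ZMod 3, (∃ u ∈ U1, v u ≠ 0) → ∃ l, l ≠ ks ∧ ∑ u ∈ U1, v u * B u l ≠ 0) →
  (∀ w : U → ZMod 3, (∃ u, w u ≠ 0) → ∃ k ∈ J1, ∑ u, w u * C k u ≠ 0) →
  (2 * M + 2) * Fintype.card U + R ≤ J1.card →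
  (∀ i j, i ≠ j → (2 * M + 2) * Fintype.card U + R ≤
    (J1.filter fun k => ∑ u, (m i u - m j u) * C k u ≠ 0).card) →
  |((univ.filter fun α : prs J1 → ZMod 3 => ∀ i, GdM (m i) U1 J1 A B C (ext α)).card : ℝ) /
      3 ^ (prs J1).card - c3 ^ M| ≤ ε

/-- the labels of the large primes `S₁` with respect to the small ones `S₀` are not
degenerate, and they separate the exponent vectors -/
def NdJ {M : ℕ} (R : ℕ) (T : Finset ℕ) (m : Fin M → ℕ → ZMod 3) (S₀ S₁ : Finset ℕ) : Prop :=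
  Nd S₀ S₁ ∧ (2 * M + 2) * S₀.card + R ≤ (S₁.filter fun p => p % 3 = 1).card ∧
    ∀ i j, i ≠ j → (2 * M + 2) * S₀.card + R ≤
      (S₁.filter fun p => p % 3 = 1 ∧ ∑ t ∈ T, (m i t - m j t) * lam p t ≠ 0).card

/-- JC-BOX: the count in a box. -/
def S_JBOX : Prop := S_EQ → S_JLA → ∀ (M : ℕ) (ε : ℝ), 0 < ε → ∃ R : ℕ, ∀
  (ι : Type) [Fintype ι] (J1 : Finset ι) (C : ι → Finset ℕ) (X : ι → ℕ) (κ : ℝ)
  (S₀ T : Finset ℕ) (m : Fin M → ℕ → ZMod 3), OkM T m → T ⊆ S₀ → 0 ≤ κ →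
  (∀ i, (C i).card ≤ X i) → HB J1 C X κ → (∀ u ∈ S₀, u.Prime ∧ u ≠ 3) →
  (∀ i, ∀ p ∈ C i, p.Prime ∧ p ∉ S₀ ∧ (i ∈ J1 → p % 3 = 1) ∧ (i ∉ J1 → p % 3 = 2)) →
  (∀ i l, i ≠ l → Disjoint (C i) (C l)) → J1.Nonempty →
  (S₀.filter fun p => p % 3 = 2).card + (univ \ J1).card = 1 →
  |(((Fintype.piFinset C).filter fun p => NdJ R T m S₀ (univ.image p) ∧
      GdJ m (S₀ ∪ univ.image p)).card : ℝ) -
      c3 ^ M * (((Fintype.piFinset C).filter fun p => NdJ R T m S₀ (univ.image p)).card : ℝ)| ≤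
    ε * (((Fintype.piFinset C).filter fun p => NdJ R T m S₀ (univ.image p)).card : ℝ) +
    3 ^ (2 * S₀.card * Fintype.card ι + (prs J1).card) * (κ * ∏ j, (X j : ℝ))

/-- JC-KEY: the sum over the boxes. -/
def S_JKEY : Prop := LamP → S_BIL1 → S_BIL2 → S_EQ → S_JLA → S_JBOX → ∀ (M : ℕ) (ε : ℝ), 0 < ε →
  ∃ (R : ℕ) (C : ℝ), 1 ≤ C ∧
  ∀ (X z H K V N : ℕ) (κ : ℝ) (T : Finset ℕ) (m : Fin M → ℕ → ZMod 3), OkM T m →
  (∀ t ∈ T, t ≤ z) → 1 ≤ X → 1 ≤ H → 1 ≤ z → 0 ≤ κ → C ≤ κ ^ 12 * z →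
  (H : ℝ) * Real.log X < N →
  |(((RR X z H K V).filter fun S => T ⊆ S ∧ NdJ R T m (sm z S) (la z S) ∧ GdJ m S).card : ℝ) -
      c3 ^ M * (((RR X z H K V).filter fun S => T ⊆ S ∧
        NdJ R T m (sm z S) (la z S)).card : ℝ)| ≤
    ε * (((RR X z H K V).filter fun S => T ⊆ S).card : ℝ) +
    (9 * N + 9 : ℝ) ^ K * (3 ^ (3 * K ^ 2) * κ) * (X * (1 + Real.log X))

/-- JC-FEW: few sets have few large primes at which a given product is not a cube. -/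
def S_JFEW : Prop := LamP → S_SIE → S_HAL → ∀ (T : Finset ℕ) (v : ℕ → ZMod 3) (K R : ℕ),
  (∀ t ∈ T, t.Prime ∧ t ≠ 3) → (∃ t ∈ T, v t ≠ 0) → ∃ (C : ℝ) (X₀ : ℕ), ∀ X : ℕ, X₀ ≤ X →
  (((SS X).filter fun S => ((la (zz X) S).filter fun p => p % 3 = 1 ∧
      ∑ t ∈ T, v t * lam p t ≠ 0).card < K * (sm (zz X) S).card + R).card : ℝ) ≤
    C * X * (Real.log X) ^ (-(3 / 5) : ℝ)

end Pool.Agent.X253.JC
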