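import Pool.Agent.Y703.CX.Asy
import Pool.Agent.X253.JC.Stm

/-!
# Project JC: the final asymptotics
-/

set_option autoImplicit false

open scoped Classical
open Finset Filter

namespace Pool.Agent.X253.JC

open Pool.Agent.Y703.CX

/-- the class is large also with the condition to contain `T` -/
theorem low_T {T : Finset ℕ} (hT : ∀ t ∈ T, t.Prime ∧ t % 9 = 1) (X : ℕ) :
    (SS (X / ∏ t ∈ T, t)).card ≤ 2 ^ T.card * ((SS X).filter fun S => T ⊆ S).card := by
  have h0 : 2 ^ T.card * ((SS X).filter fun S => T ⊆ S).card =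
      (((SS X).filter fun S => T ⊆ S) ×ˢ T.powerset).card := by
    rw [card_product, card_powerset, mul_comm]
  rw [h0]
  refine card_le_card_of_injOn (fun S => (S ∪ T, S ∩ T)) ?_ ?_
  · intro S hS
    rw [mem_coe, SS, mem_filter, mem_powerset] at hS
    obtain ⟨h1, ⟨h2, h3, h4, h5⟩, h6⟩ := hS
    have hTp : ∀ t ∈ T \ S, t.Prime ∧ t % 9 = 1 := fun t ht => hT t (mem_sdiff.1 ht).1
    have hU : S ∪ T = S ∪ (T \ S) := (union_sdiff_self_eq_union).symm
    have hprod : ∏ p ∈ S ∪ T, p = (∏ p ∈ S, p) * ∏ p ∈ T \ S, p := by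
      rw [hU, prod_union disjoint_sdiff]
    have hpr : ∀ p ∈ S ∪ T, p.Prime ∧ p ≠ 3 := by
      intro p hp
      rcases mem_union.1 hp with hp | hp
      · exact h2 p hp
      · exact ⟨(hT p hp).1, fun h => by have := (hT p hp).2; omega⟩
    have hle : ∏ p ∈ S ∪ T, p ≤ X := by
      rw [hprod]
      have e1 : ∏ p ∈ T \ S, p ≤ ∏ p ∈ T, p :=
        Nat.le_of_dvd (prod_pos fun p hp => (hT p hp).1.pos)
          (prod_dvd_prod_of_subset _ _ _ sdiff_subset)
      calc (∏ p ∈ S, p) * ∏ p ∈ T \ S, p ≤ (X / ∏ t ∈ T, t) * ∏ t ∈ T, t := Nat.mul_le_mul h6 e1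
        _ ≤ X := Nat.div_mul_le_self _ _
    have hmod : (∏ p ∈ S ∪ T, p) % 9 = (∏ p ∈ S, p) % 9 := by
      rw [hprod, Nat.mul_mod, Finset.prod_nat_mod (T \ S) 9]
      have e1 : ∏ p ∈ T \ S, p % 9 = 1 := prod_eq_one fun p hp => (hTp p hp).2
      rw [e1, ← Nat.mul_mod, mul_one]
    rw [mem_coe, mem_product, mem_filter, SS, mem_filter, mem_powerset, mem_powerset]
    refine ⟨⟨⟨?_, ⟨hpr, ?_, ?_, ?_⟩, hle⟩, subset_union_right⟩, inter_subset_right⟩
    · intro p hp
      rw [mem_range]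
      have e1 : p ∣ ∏ p ∈ S ∪ T, p := dvd_prod_of_mem _ hp
      have e2 : 0 < ∏ p ∈ S ∪ T, p := prod_pos fun p hp => (hpr p hp).1.pos
      have := Nat.le_of_dvd e2 e1
      omega
    · rw [filter_union]
      have e1 : (T.filter fun p => p % 3 = 2) = ∅ := by
        rw [filter_eq_empty_iff]
        intro p hp
        have := (hT p hp).2
        omega
      rw [e1, union_empty]
      exact h3
    · rw [hmod]
      exact h4
    · rw [hmod]
      exact h5
  · intro S _ S' _ h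
    simp only [Prod.mk.injEq] at h
    obtain ⟨h1, h2⟩ := h
    ext p
    have e1 : p ∈ S ∪ T ↔ p ∈ S' ∪ T := by rw [h1]
    have e2 : p ∈ S ∩ T ↔ p ∈ S' ∩ T := by rw [h2]
    rw [mem_union, mem_union] at e1
    rw [mem_inter, mem_inter] at e2
    tauto

/-- the comparison of the counts -/
theorem cmpP (P : Finset ℕ → Prop) (T S : Finset (Finset ℕ)) (hTS : T ⊆ S) (c : ℝ) (hc0 : 0 ≤ c)
    (hc1 : c ≤ 1) :
    |((S.filter P).card : ℝ) - c * (S.card : ℝ)| ≤
      |((T.filter P).card : ℝ) - c * (T.card : ℝ)| + ((S \ T).card : ℝ) := by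
  have e1 : ((S.filter P).card : ℝ) = (T.filter P).card + ((S \ T).filter P).card := by
    rw [← Nat.cast_add, ← card_union_of_disjoint, ← filter_union, union_sdiff_of_subset hTS]
    exact disjoint_filter_filter (disjoint_sdiff)
  have e2 : (S.card : ℝ) = T.card + (S \ T).card := by
    rw [← Nat.cast_add, ← card_union_of_disjoint disjoint_sdiff, union_sdiff_of_subset hTS]
  have h1 : |(((S \ T).filter P).card : ℝ) - c * ((S \ T).card : ℝ)| ≤ ((S \ T).card : ℝ) := by
    have h2 : (((S \ T).filter P).card : ℝ) ≤ ((S \ T).card : ℝ) := by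
      exact_mod_cast card_filter_le _ _
    have h3 : (0 : ℝ) ≤ ((S \ T).card : ℝ) := Nat.cast_nonneg _
    exact abs_sub_le_of (Nat.cast_nonneg _) h2 (mul_nonneg hc0 h3)
      (mul_le_of_le_one_left h3 hc1)
  have e3 : ((S.filter P).card : ℝ) - c * (S.card : ℝ) =
      (((T.filter P).card : ℝ) - c * (T.card : ℝ)) +
      ((((S \ T).filter P).card : ℝ) - c * ((S \ T).card : ℝ)) := by
    rw [e1, e2]; ring
  rw [e3]
  exact (abs_add_le _ _).trans (add_le_add le_rfl h1)

theorem sml_sum {ι : Type} (s : Finset ι) (E : ι → ℕ → ℝ) (h : ∀ i ∈ s, Sml (E i)) :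
    Sml fun X => ∑ i ∈ s, E i X := by
  induction s using Finset.induction_on with
  | empty =>
    intro δ hδ
    filter_upwards with X
    rw [sum_empty]
    positivity
  | insert a s ha ih =>
    have h1 := sml_add (h a (mem_insert_self _ _)) (ih fun i hi => h i (mem_insert_of_mem hi))
    intro δ hδ
    filter_upwards [h1 δ hδ] with X hX
    rw [sum_insert ha]
    exact hX

theorem t_JDQ (hL : LamP) (h1 : S_BIL1) (h2 : S_BIL2) (h3 : S_EQ) (h4 : S_JLA) (h5 : S_JBOX)
    (hK : S_JKEY) (hC : CntP) (hS : S_SIE) (hH : S_HAL) (hB : S_BAD) (hF : S_FEW) (hJF : S_JFEW)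
    (hM : S_MER) (hCh : S_CHE) (hLo : S_LOW) (hc3 : S_C3) : S_JDQ := by
  intro M T m hm
  have hT9 : ∀ t ∈ T, t.Prime ∧ t % 9 = 1 := fun t ht => ⟨(hm.pr t ht).1, hm.nine t ht⟩
  have hT3 : ∀ t ∈ T, t.Prime ∧ t ≠ 3 := fun t ht => ⟨(hm.pr t ht).1, fun h => by
    have := (hm.pr t ht).2
    omega⟩
  obtain ⟨CB, XB, hbad⟩ := hB hL hS hH
  obtain ⟨c₀, X₁, hc₀, hlow⟩ := hLo hM hCh
  obtain ⟨P, hPd⟩ : ∃ P, P = ∏ t ∈ T, t := ⟨_, rfl⟩
  have hP0 : 0 < P := by
    rw [hPd]
    exact prod_pos fun t ht => (hT9 t ht).1.pos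
  have hP0' : (0 : ℝ) < P := by exact_mod_cast hP0
  obtain ⟨c, hcd⟩ : ∃ c : ℝ, c = c₀ / (2 ^ T.card * (2 * P)) := ⟨_, rfl⟩
  have hc : 0 < c := by
    rw [hcd]
    positivity
  rw [Metric.tendsto_nhds]
  intro ε hε
  obtain ⟨R, C, hC1, hkey⟩ := hK hL h1 h2 h3 h4 h5 M (ε / 4) (by linarith)
  obtain ⟨CF, XF, hfew⟩ := hF hS 0
  obtain ⟨C7, X7, hfew7⟩ := hJF hL hS hH {7} (fun _ => 1) (2 * M + 2) R
    (fun t ht => by
      rw [mem_singleton] at ht
      rw [ht]
      norm_num) ⟨7, mem_singleton_self 7, one_ne_zero⟩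
  have s1 := sml_many hC
  have s2 := sml_cut hC
  have s3 := sml_coll hC
  have s4 := sml_rpow hfew
  have s5 := sml_rpow hbad
  have s6 := sml_main hC1
  have s7 := sml_rpow hfew7
  have s8 : Sml fun X => ∑ q ∈ (univ : Finset (Fin M × Fin M)).filter (fun q => q.1 ≠ q.2),
      (((SS X).filter fun S => ((la (zz X) S).filter fun p => p % 3 = 1 ∧
        ∑ t ∈ T, (m q.1 t - m q.2 t) * lam p t ≠ 0).card <
          (2 * M + 2) * (sm (zz X) S).card + R).card : ℝ) := by
    refine sml_sum _ (fun (q : Fin M × Fin M) (X : ℕ) =>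
      (((SS X).filter fun S => ((la (zz X) S).filter fun p => p % 3 = 1 ∧
        ∑ t ∈ T, (m q.1 t - m q.2 t) * lam p t ≠ 0).card <
          (2 * M + 2) * (sm (zz X) S).card + R).card : ℝ)) fun q hq => ?_
    obtain ⟨t, ht, htq⟩ := hm.ne q.1 q.2 (mem_filter.1 hq).2
    obtain ⟨Cq, Xq, hq'⟩ := hJF hL hS hH T (fun t => m q.1 t - m q.2 t) (2 * M + 2) R hT3
      ⟨t, ht, sub_ne_zero.2 htq⟩
    exact sml_rpow hq'
  have s := sml_add (sml_add (sml_add (sml_add (sml_add (sml_add (sml_add s1 s2) s3) s4) s5) s7)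
    s8) s6
  have hδ : (0 : ℝ) < c * ε / 4 := by positivity
  filter_upwards [s (c * ε / 4) hδ, ev_eL 1, eventually_ge_atTop (P * X₁),
    eventually_ge_atTop (2 * P), ev_eL (∑ t ∈ T, (t : ℝ)), eventually_ge_atTop (3 * P)]
    with X hX hl hX1 hX2 hlT hX3
  have hl0 : 0 < eL X := by linarith
  have hXp := X_pos hl0
  have hXp' : (0 : ℝ) < X := by exact_mod_cast hXp
  set SX := (SS X).filter fun S => T ⊆ S with hSX
  -- the lower bound
  have hlo : c * X * Real.exp (-(eL X) / 2) ≤ (SX.card : ℝ) := by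
    obtain ⟨Y, hY⟩ : ∃ Y, Y = X / P := ⟨_, rfl⟩
    have hY1 : X₁ ≤ Y := by
      rw [hY, Nat.le_div_iff_mul_le hP0, mul_comm]
      exact hX1
    have hY3 : 3 ≤ Y := by
      rw [hY, Nat.le_div_iff_mul_le hP0]
      exact hX3
    have hYX : Y ≤ X := by
      rw [hY]
      exact Nat.div_le_self _ _
    have hYr : (X : ℝ) / (2 * P) ≤ Y := by
      have e1 : X < P * (Y + 1) := by
        rw [hY]
        exact Nat.lt_mul_div_succ X hP0
      have e2 : (X : ℝ) < P * (Y + 1) := by exact_mod_cast e1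
      have e3 : (2 : ℝ) * P ≤ X := by exact_mod_cast hX2
      rw [div_le_iff₀ (by positivity)]
      nlinarith
    have h6 := hlow Y hY1
    have h7 := low_T hT9 X
    rw [← hPd, ← hY, ← hSX] at h7
    have h8 : ((SS Y).card : ℝ) ≤ 2 ^ T.card * (SX.card : ℝ) := by exact_mod_cast h7
    have hlY : 0 < Real.log Y := Real.log_pos (by exact_mod_cast (by omega : 1 < Y))
    have h9 : (Real.log X) ^ (-(1 / 2) : ℝ) ≤ (Real.log Y) ^ (-(1 / 2) : ℝ) := by
      refine Real.rpow_le_rpow_of_nonpos hlY ?_ (by norm_num)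
      exact Real.log_le_log (by exact_mod_cast (by omega : 0 < Y)) (by exact_mod_cast hYX)
    have e0 : (-(1 / 2) * eL X : ℝ) = -(eL X) / 2 := by ring
    rw [rpow_eL hl0, e0] at h9
    have h10 : c₀ * (X / (2 * P)) * Real.exp (-(eL X) / 2) ≤ 2 ^ T.card * (SX.card : ℝ) := by
      refine le_trans ?_ (h6.trans h8)
      have : 0 ≤ (Real.exp (-(eL X) / 2)) := (Real.exp_pos _).le
      gcongr
    have h11 : c * X * Real.exp (-(eL X) / 2) =
        (c₀ * (X / (2 * P)) * Real.exp (-(eL X) / 2)) / 2 ^ T.card := by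
      rw [hcd]
      field_simp
    rw [h11, div_le_iff₀ (by positivity), mul_comm (SX.card : ℝ)]
    exact h10
  have hSpos : (0 : ℝ) < (SX.card : ℝ) := by
    refine lt_of_lt_of_le ?_ hlo
    positivity
  have hTz : ∀ t ∈ T, t ≤ zz X := by
    intro t ht
    unfold zz
    apply Nat.le_floor
    have e1 := Real.add_one_le_exp ((eL X) ^ 3)
    have e2 : eL X ≤ (eL X) ^ 3 := by
      calc eL X = (eL X) ^ 1 := (pow_one _).symm
        _ ≤ _ := pow_le_pow_right₀ hl (by norm_num)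
    have e4 : (t : ℝ) ≤ ∑ t ∈ T, (t : ℝ) :=
      single_le_sum (f := fun t : ℕ => (t : ℝ)) (fun _ _ => Nat.cast_nonneg _) ht
    linarith
  have hN : (HH X : ℝ) * Real.log X < NN X := by
    unfold NN
    push_cast
    exact Nat.lt_floor_add_one _
  have hmain := hkey X (zz X) (HH X) (kk X) 0 (NN X) (kap C X) T m hm hTz hXp (HH_pos hl0)
    (zz_pos hl) (kap_nonneg hC1 X) (kap_pow hC1 hl) hN
  set T' := (RR X (zz X) (HH X) (kk X) 0).filter fun S => T ⊆ S ∧
    NdJ R T m (sm (zz X) S) (la (zz X) S) with hT'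
  have hTG : ((RR X (zz X) (HH X) (kk X) 0).filter fun S => T ⊆ S ∧
      NdJ R T m (sm (zz X) S) (la (zz X) S) ∧ GdJ m S) = T'.filter (GdJ m) := by
    rw [hT', filter_filter]
    refine filter_congr fun S _ => ?_
    tauto
  rw [hTG] at hmain
  have hTS : T' ⊆ SX := by
    intro S hS
    rw [hT', mem_filter, RR, mem_filter] at hS
    rw [hSX, mem_filter]
    exact ⟨hS.1.1, hS.2.1⟩
  have hRS : (((RR X (zz X) (HH X) (kk X) 0).filter fun S => T ⊆ S).card : ℝ) ≤
      (SX.card : ℝ) := by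
    exact_mod_cast card_le_card (filter_subset_filter _ (filter_subset _ _))
  have hcM0 : (0 : ℝ) ≤ c3 ^ M := pow_nonneg hc3.2.1.le M
  have hcM1 : c3 ^ M ≤ 1 := pow_le_one₀ hc3.2.1.le hc3.2.2.1.le
  have hcmp := cmpP (GdJ m) T' SX hTS (c3 ^ M) hcM0 hcM1
  have hout : ((SX \ T').card : ℝ) ≤
      (((((((SS X).filter fun S => kk X < S.card).card : ℝ) +
      (((SS X).filter fun S => S.card ≤ kk X ∧
        X < (∏ p ∈ sm (zz X) S, p) * ∏ p ∈ la (zz X) S, XX (HH X) (jj (HH X) p)).card : ℝ)) +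
      (((SS X).filter fun S => ¬ Set.InjOn (jj (HH X)) (la (zz X) S : Set ℕ)).card : ℝ)) +
      (((SS X).filter fun S => ((la (zz X) S).filter fun p => p % 3 = 1).card ≤
        (sm (zz X) S).card + 0).card : ℝ)) +
      (((SS X).filter fun S => S.card ≤ kk X ∧ ¬ Nd (sm (zz X) S) (la (zz X) S)).card : ℝ)) +
      (((SS X).filter fun S => ((la (zz X) S).filter fun p => p % 3 = 1 ∧
        ∑ t ∈ ({7} : Finset ℕ), 1 * lam p t ≠ 0).card <
          (2 * M + 2) * (sm (zz X) S).card + R).card : ℝ) +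
      ∑ q ∈ (univ : Finset (Fin M × Fin M)).filter (fun q => q.1 ≠ q.2),
      (((SS X).filter fun S => ((la (zz X) S).filter fun p => p % 3 = 1 ∧
        ∑ t ∈ T, (m q.1 t - m q.2 t) * lam p t ≠ 0).card <
          (2 * M + 2) * (sm (zz X) S).card + R).card : ℝ) := by
    have hsub : SX \ T' ⊆ ((((((((SS X).filter fun S => kk X < S.card) ∪
      ((SS X).filter fun S => S.card ≤ kk X ∧
        X < (∏ p ∈ sm (zz X) S, p) * ∏ p ∈ la (zz X) S, XX (HH X) (jj (HH X) p))) ∪
      ((SS X).filter fun S => ¬ Set.InjOn (jj (HH X)) (la (zz X) S : Set ℕ))) ∪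
      ((SS X).filter fun S => ((la (zz X) S).filter fun p => p % 3 = 1).card ≤
        (sm (zz X) S).card + 0)) ∪
      ((SS X).filter fun S => S.card ≤ kk X ∧ ¬ Nd (sm (zz X) S) (la (zz X) S))) ∪
      ((SS X).filter fun S => ((la (zz X) S).filter fun p => p % 3 = 1 ∧
        ∑ t ∈ ({7} : Finset ℕ), 1 * lam p t ≠ 0).card <
          (2 * M + 2) * (sm (zz X) S).card + R)) ∪
      ((univ : Finset (Fin M × Fin M)).filter (fun q => q.1 ≠ q.2)).biUnion fun q =>
      ((SS X).filter fun S => ((la (zz X) S).filter fun p => p % 3 = 1 ∧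
        ∑ t ∈ T, (m q.1 t - m q.2 t) * lam p t ≠ 0).card <
          (2 * M + 2) * (sm (zz X) S).card + R)) := by
      intro S hS'
      rw [Finset.mem_sdiff, hSX, Finset.mem_filter, hT', Finset.mem_filter] at hS'
      obtain ⟨⟨g1, g2⟩, g3⟩ := hS'
      simp only [mem_union, mem_filter, mem_biUnion, mem_univ, true_and]
      by_contra hcc
      push Not at hcc
      obtain ⟨⟨⟨⟨⟨⟨c1, c2⟩, c3'⟩, c4⟩, c5⟩, c6⟩, c7⟩ := hcc
      have d1 : S.card ≤ kk X := c1 g1
      have d2 := c2 g1 d1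
      have d3 := c3' g1
      have d4 := c4 g1
      have d5 := c5 g1 d1
      have d6 := c6 g1
      apply g3
      refine ⟨?_, g2, d5, ?_, ?_⟩
      · unfold RR
        rw [mem_filter]
        exact ⟨g1, d3, d1, d2, d4⟩
      · refine d6.trans (card_le_card ?_)
        intro p hp
        rw [mem_filter] at hp ⊢
        exact ⟨hp.1, hp.2.1⟩
      · intro i j hij
        exact c7 (i, j) hij g1
    have g := card_le_card hsub
    have g2 := g.trans ((card_union_le _ _).trans (Nat.add_le_add ((card_union_le _ _).trans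
      (Nat.add_le_add_right ((card_union_le _ _).trans
      (Nat.add_le_add_right ((card_union_le _ _).trans
      (Nat.add_le_add_right ((card_union_le _ _).trans
      (Nat.add_le_add_right (card_union_le _ _) _)) _)) _)) _)) card_biUnion_le))
    exact_mod_cast g2
  have htot : |((SX.filter (GdJ m)).card : ℝ) - c3 ^ M * (SX.card : ℝ)| ≤
      ε / 4 * (SX.card : ℝ) + c * ε / 4 * (X * Real.exp (-(eL X) / 2)) := by
    have g1 : ε / 4 * (((RR X (zz X) (HH X) (kk X) 0).filter fun S => T ⊆ S).card : ℝ) ≤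
        ε / 4 * (SX.card : ℝ) := mul_le_mul_of_nonneg_left hRS (by positivity)
    linarith
  rw [Real.dist_eq]
  have hfil : ((SS X).filter fun S => T ⊆ S ∧ GdJ m S) = SX.filter (GdJ m) := by
    rw [hSX, filter_filter]
  rw [hfil]
  have e3 : ((SX.filter (GdJ m)).card : ℝ) / (SX.card : ℝ) - c3 ^ M =
      (((SX.filter (GdJ m)).card : ℝ) - c3 ^ M * (SX.card : ℝ)) / (SX.card : ℝ) := by
    field_simp
  rw [e3, abs_div, abs_of_pos hSpos, div_lt_iff₀ hSpos]
  refine lt_of_le_of_lt htot ?_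
  have g2 : c * ε / 4 * (X * Real.exp (-(eL X) / 2)) ≤ ε / 4 * (SX.card : ℝ) := by
    calc c * ε / 4 * (X * Real.exp (-(eL X) / 2)) = ε / 4 * (c * X * Real.exp (-(eL X) / 2)) := by ring
      _ ≤ _ := mul_le_mul_of_nonneg_left hlo (by linarith)
  have g4 : 0 < ε * (SX.card : ℝ) := by positivity
  linarith

end Pool.Agent.X253.JC
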