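import Pool.Agent.Y495.CX.FEW
import Pool.Agent.Y37.CX.Bad
import Pool.Agent.X253.JC.Stm

/-!
# JC-FEW: few sets have few large primes at which a given product is not a cube
-/

set_option autoImplicit false
set_option linter.unusedVariables false

open scoped Classical

namespace Pool.Agent.X253.JC

open Finset Filter
open Pool.Agent.Y692.QS (Ei)
open Pool.Agent.Y699.E (PS nrm lg xab sum_le_inj ez_zero one_le_lg)
open Pool.Agent.Y703.CX
open Pool.Agent.Y495.CX.Few (PN euler SS_mem prod_pos' le_of_mem_prod mert eL_tendsto log_small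
  zz_ge loglog_zz rpow_eq part1 moment mod_three)
open Pool.Agent.Y37.CX (Exc UU mem_UU sum_UU Pm Pm_nonneg prod_pos_of prod_sub_le sub_range mod3
  AA Sf Pf Qf xab_val dtP dtQ PQ_ne)

/-- the family -/
noncomputable def LV (A B : Ei) (X z k : ℕ) : Finset (Finset ℕ) :=
  (range (X + 1)).powerset.filter fun S => (∀ p ∈ S, p.Prime ∧ p ≠ 3) ∧ ∏ p ∈ S, p ≤ X ∧
    (S.filter fun p => p % 3 = 2).card ≤ 1 ∧
    ((la z S).filter fun p => p % 3 = 1 ∧ Exc A B p).card ≤ k

lemma mem_LV {A B : Ei} {X z k : ℕ} {S : Finset ℕ} : S ∈ LV A B X z k ↔ S ⊆ range (X + 1) ∧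
    (∀ p ∈ S, p.Prime ∧ p ≠ 3) ∧ ∏ p ∈ S, p ≤ X ∧ (S.filter fun p => p % 3 = 2).card ≤ 1 ∧
    ((la z S).filter fun p => p % 3 = 1 ∧ Exc A B p).card ≤ k := by
  unfold LV
  rw [mem_filter, mem_powerset]

lemma LV_sub {A B : Ei} {X z k : ℕ} {S T : Finset ℕ} (hS : S ∈ LV A B X z k) (h : T ⊆ S) :
    T ∈ LV A B X z k := by
  rw [mem_LV] at hS ⊢
  obtain ⟨a0, a1, a2, a3, a4⟩ := hS
  refine ⟨h.trans a0, fun p hp => a1 p (h hp), ?_, ?_, ?_⟩
  · exact (prod_sub_le h fun p hp => (a1 p hp).1).trans a2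
  · exact (card_le_card (filter_subset_filter _ h)).trans a3
  · refine (card_le_card (filter_subset_filter _ ?_)).trans a4
    unfold la
    exact filter_subset_filter _ h

/-- sets with at most `k` primes -/
noncomputable def BK (X k : ℕ) : Finset (Finset ℕ) := (PN X).powerset.filter fun S => S.card ≤ k

lemma sum_BK (X k : ℕ) : ∑ S ∈ BK X k, (1 : ℝ) / ((∏ p ∈ S, p : ℕ) : ℝ) ≤
    32 ^ k * Real.exp (1 / 32 * Pm X) := by
  have h1 : ∀ S ∈ BK X k, (1 : ℝ) / ((∏ p ∈ S, p : ℕ) : ℝ) ≤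
      32 ^ k * ∏ p ∈ S, (1 / 32 * (1 / (p : ℝ))) := by
    intro S hS
    unfold BK at hS
    have h2 := (mem_filter.1 hS).2
    have h4 : (1 : ℝ) / ((∏ p ∈ S, p : ℕ) : ℝ) = ∏ p ∈ S, (1 : ℝ) / p := by
      rw [prod_div_distrib, prod_const_one]
      push_cast
      rfl
    have h3 : (0 : ℝ) ≤ ∏ p ∈ S, (1 : ℝ) / p := prod_nonneg fun p _ => by positivity
    rw [h4, prod_mul_distrib, prod_const, ← mul_assoc]
    have h5 : (1 : ℝ) ≤ 32 ^ k * (1 / 32 : ℝ) ^ S.card := by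
      have e1 : (32 : ℝ) ^ k * (1 / 32 : ℝ) ^ k = 1 := by
        rw [← mul_pow]
        norm_num
      have e2 : (1 / 32 : ℝ) ^ k ≤ (1 / 32 : ℝ) ^ S.card :=
        pow_le_pow_of_le_one (by norm_num) (by norm_num) h2
      calc (1 : ℝ) = (32 : ℝ) ^ k * (1 / 32 : ℝ) ^ k := e1.symm
        _ ≤ _ := mul_le_mul_of_nonneg_left e2 (by positivity)
    exact le_mul_of_one_le_left h3 h5
  refine (sum_le_sum h1).trans ?_
  rw [← mul_sum]
  apply mul_le_mul_of_nonneg_left _ (by positivity)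
  refine (sum_le_sum_of_subset_of_nonneg (filter_subset _ _) fun S _ _ =>
    prod_nonneg fun p _ => by positivity).trans ?_
  refine (euler (PN X) (fun p => 1 / 32 * (1 / (p : ℝ))) fun p _ => by positivity).trans ?_
  rw [← mul_sum]
  exact le_rfl

lemma sum_sub (z : ℕ) : ∑ S ∈ (PN z).powerset, (1 : ℝ) / ((∏ p ∈ S, p : ℕ) : ℝ) ≤
    Real.exp (Pm z) := by
  have h1 : ∀ S ∈ (PN z).powerset, (1 : ℝ) / ((∏ p ∈ S, p : ℕ) : ℝ) =
      ∏ p ∈ S, (1 / (p : ℝ)) := by
    intro S _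
    rw [prod_div_distrib, prod_const_one]
    push_cast
    rfl
  rw [sum_congr rfl h1]
  exact euler (PN z) (fun p => 1 / (p : ℝ)) fun p _ => by positivity

/-- the logarithmic sum over the family -/
lemma LV_sum (A B : Ei) (X z k : ℕ) :
    ∑ S ∈ LV A B X z k, (1 : ℝ) / ((∏ p ∈ S, p : ℕ) : ℝ) ≤
      Real.exp (Pm z) * ((1 + Pm X) * ((32 ^ k * Real.exp (1 / 32 * Pm X)) *
        ∑ S ∈ HD A B X, (1 : ℝ) / ((∏ p ∈ S, p : ℕ) : ℝ))) := by
  have hnn : ∀ L : Finset (Finset ℕ), 0 ≤ ∑ S ∈ L, (1 : ℝ) / ((∏ p ∈ S, p : ℕ) : ℝ) :=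
    fun L => sum_nonneg fun S _ => by positivity
  have e : ∑ x ∈ (PN z).powerset ×ˢ (UU X ×ˢ (BK X k ×ˢ HD A B X)),
      (1 : ℝ) / ((∏ p ∈ x.1, p : ℕ) : ℝ) * (1 / ((∏ p ∈ x.2.1, p : ℕ) : ℝ) *
        (1 / ((∏ p ∈ x.2.2.1, p : ℕ) : ℝ) * (1 / ((∏ p ∈ x.2.2.2, p : ℕ) : ℝ)))) =
      (∑ S ∈ (PN z).powerset, (1 : ℝ) / ((∏ p ∈ S, p : ℕ) : ℝ)) * ((1 + Pm X) *
        ((∑ S ∈ BK X k, (1 : ℝ) / ((∏ p ∈ S, p : ℕ) : ℝ)) *
        ∑ S ∈ HD A B X, (1 : ℝ) / ((∏ p ∈ S, p : ℕ) : ℝ))) := by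
    rw [sum_product]
    simp_rw [← mul_sum]
    rw [← sum_mul, sum_product]
    simp_rw [← mul_sum]
    rw [← sum_mul, sum_UU, sum_product]
    simp_rw [← mul_sum]
    rw [← sum_mul]
  have hP := Pm_nonneg X
  refine le_trans ?_ (mul_le_mul (sum_sub z) (mul_le_mul_of_nonneg_left
    (mul_le_mul_of_nonneg_right (sum_BK X k) (hnn _)) (by linarith)) (mul_nonneg (by linarith)
      (mul_nonneg (hnn _) (hnn _))) (Real.exp_pos _).le)
  rw [← e]
  refine sum_le_inj (fun T => (T.filter (fun p => p ≤ z), (T.filter (fun p => ¬ p ≤ z ∧ p % 3 = 2),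
    (T.filter (fun p => ¬ p ≤ z ∧ p % 3 = 1 ∧ Exc A B p),
      T.filter (fun p => ¬ p ≤ z ∧ p % 3 = 1 ∧ ¬ Exc A B p))))) ?_ ?_ ?_ ?_
  · intro T hT
    rw [mem_LV] at hT
    obtain ⟨h1, h2, h5, h3, h4⟩ := hT
    have hpr : ∀ p ∈ T, p.Prime := fun p hp => (h2 p hp).1
    have hle : ∀ p ∈ T, p ≤ X := fun p hp => by
      have := mem_range.1 (h1 hp); omega
    rw [mem_product, mem_product, mem_product]
    refine ⟨?_, mem_UU ?_ fun p hp => ?_, ?_, ?_⟩
    · rw [mem_powerset]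
      intro p hp
      rw [mem_filter] at hp
      rw [mem_filter, mem_Icc]
      exact ⟨⟨(hpr p hp.1).one_lt.le, hp.2⟩, hpr p hp.1⟩
    · refine (card_le_card ?_).trans h3
      intro p hp
      rw [mem_filter] at hp ⊢
      exact ⟨hp.1, hp.2.2⟩
    · exact ⟨hpr p (mem_filter.1 hp).1, hle p (mem_filter.1 hp).1⟩
    · unfold BK
      rw [mem_filter, mem_powerset]
      refine ⟨fun p hp => ?_, (card_le_card ?_).trans h4⟩
      · rw [mem_filter] at hp
        rw [mem_filter, mem_Icc]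
        exact ⟨⟨(hpr p hp.1).one_lt.le, hle p hp.1⟩, hpr p hp.1⟩
      · intro p hp
        rw [mem_filter] at hp
        unfold la
        rw [mem_filter, mem_filter]
        exact ⟨⟨hp.1, hp.2.1⟩, hp.2.2⟩
    · rw [HD, mem_filter, mem_powerset]
      refine ⟨(filter_subset _ _).trans h1, fun p hp => ?_,
        (prod_sub_le (filter_subset _ _) hpr).trans h5⟩
      obtain ⟨k1, k0, k2, k3⟩ := mem_filter.1 hp
      unfold Exc at k3
      rw [not_not] at k3
      exact ⟨hpr p k1, k2, k3.1, k3.2⟩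
  · intro S hS T hT h
    rw [mem_LV] at hS hT
    simp only [Prod.mk.injEq] at h
    obtain ⟨h0, h1, h2, h3⟩ := h
    have key : ∀ S : Finset ℕ, (∀ p ∈ S, p.Prime ∧ p ≠ 3) → ∀ p, p ∈ S ↔
        p ∈ S.filter (fun p => p ≤ z) ∨
        p ∈ S.filter (fun p => ¬ p ≤ z ∧ p % 3 = 2) ∨
        p ∈ S.filter (fun p => ¬ p ≤ z ∧ p % 3 = 1 ∧ Exc A B p) ∨
          p ∈ S.filter (fun p => ¬ p ≤ z ∧ p % 3 = 1 ∧ ¬ Exc A B p) := by
      intro S hS p
      simp only [mem_filter]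
      constructor
      · intro hp
        have := mod3 (hS p hp).1 (hS p hp).2
        tauto
      · rintro (h | h | h | h) <;> exact h.1
    ext p
    rw [key S hS.2.1, key T hT.2.1, h0, h1, h2, h3]
  · intro T hT
    rw [mem_LV] at hT
    obtain ⟨h1, h2, h5, h3, h4⟩ := hT
    apply le_of_eq
    have e1 : ∏ p ∈ T, p = (∏ p ∈ T.filter (fun p => p ≤ z), p) *
        ((∏ p ∈ T.filter (fun p => ¬ p ≤ z ∧ p % 3 = 2), p) *
        ((∏ p ∈ T.filter (fun p => ¬ p ≤ z ∧ p % 3 = 1 ∧ Exc A B p), p) *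
          ∏ p ∈ T.filter (fun p => ¬ p ≤ z ∧ p % 3 = 1 ∧ ¬ Exc A B p), p)) := by
      rw [← prod_filter_mul_prod_filter_not T (fun p => p ≤ z)]
      congr 1
      rw [← prod_filter_mul_prod_filter_not (T.filter fun p => ¬ p ≤ z) (fun p => p % 3 = 2),
        filter_filter, filter_filter]
      congr 1
      rw [← prod_filter_mul_prod_filter_not (T.filter fun p => ¬ p ≤ z ∧ ¬ p % 3 = 2)
        (fun p => Exc A B p), filter_filter, filter_filter]
      congr 1
      · refine prod_congr (filter_congr fun p hp => ?_) fun _ _ => rfl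
        have := mod3 (h2 p hp).1 (h2 p hp).2
        constructor
        · rintro ⟨⟨a, b⟩, c⟩; exact ⟨a, by omega, c⟩
        · rintro ⟨a, b, c⟩; exact ⟨⟨a, by omega⟩, c⟩
      · refine prod_congr (filter_congr fun p hp => ?_) fun _ _ => rfl
        have := mod3 (h2 p hp).1 (h2 p hp).2
        constructor
        · rintro ⟨⟨a, b⟩, c⟩; exact ⟨a, by omega, c⟩
        · rintro ⟨a, b, c⟩; exact ⟨⟨a, by omega⟩, c⟩
    simp only
    rw [e1]
    push_cast
    rw [one_div_mul_one_div, one_div_mul_one_div, one_div_mul_one_div]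
  · intro x _
    positivity

/-- sets with many small primes -/
lemma part1g (δ : ℝ) (hδ : 0 < δ) : ∃ C : ℝ, 0 ≤ C ∧ ∀ᶠ X : ℕ in atTop,
    (((SS X).filter fun S => δ * eL X < ((sm (zz X) S).card : ℝ)).card : ℝ) ≤
      C * X * Real.exp (-(3 / 5) * eL X) := by
  obtain ⟨C, hC0, hC⟩ := mert
  set κ : ℝ := Real.exp (1 / δ) with hκ
  have κ0 : 0 < κ := Real.exp_pos _
  refine ⟨Real.exp (κ * C), (Real.exp_pos _).le, ?_⟩
  filter_upwards [eL_tendsto.eventually (log_small (3 * κ) (2 / 5) (by norm_num)),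
    eL_tendsto.eventually (eventually_ge_atTop 2)] with X h1 h2
  have h3 := moment X (zz X) κ κ0.le
  have h4 := hC (zz X) (zz_ge h2)
  have h5 := loglog_zz h2
  have h6 : (((SS X).filter fun S => δ * eL X < ((sm (zz X) S).card : ℝ)).card : ℝ) *
      Real.exp (eL X) ≤ ∑ S ∈ SS X, κ ^ (sm (zz X) S).card := by
    rw [← nsmul_eq_mul, ← sum_const]
    refine le_trans ?_ (sum_le_sum_of_subset_of_nonneg
      (filter_subset (fun S => δ * eL X < ((sm (zz X) S).card : ℝ)) (SS X))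
      fun S _ _ => by positivity)
    refine sum_le_sum fun S hS => ?_
    rw [mem_filter] at hS
    rw [hκ, ← Real.exp_nat_mul]
    apply Real.exp_le_exp.2
    rw [mul_one_div, le_div_iff₀ hδ, mul_comm]
    exact hS.2.le
  have h7 := h6.trans h3
  have h8 : κ * ∑ p ∈ PN (zz X), (1 : ℝ) / p ≤ κ * C + 2 / 5 * eL X := by
    have : κ * ∑ p ∈ PN (zz X), (1 : ℝ) / p ≤ κ * (3 * Real.log (eL X) + C) :=
      mul_le_mul_of_nonneg_left (by linarith) κ0.le
    nlinarith
  have h9 : (X : ℝ) * Real.exp (κ * ∑ p ∈ PN (zz X), (1 : ℝ) / p) ≤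
      X * (Real.exp (κ * C) * Real.exp (2 / 5 * eL X)) := by
    rw [← Real.exp_add]
    exact mul_le_mul_of_nonneg_left (Real.exp_le_exp.2 h8) (Nat.cast_nonneg _)
  have h10 := h7.trans h9
  have h11 : (Real.exp (κ * C) * X * Real.exp (-(3 / 5) * eL X)) * Real.exp (eL X) =
      X * (Real.exp (κ * C) * Real.exp (2 / 5 * eL X)) := by
    have : Real.exp (2 / 5 * eL X) = Real.exp (-(3 / 5) * eL X) * Real.exp (eL X) := by
      rw [← Real.exp_add]
      congr 1
      ring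
    rw [this]
    ring
  rw [← h11] at h10
  exact le_of_mul_le_mul_right h10 (Real.exp_pos _)

/-- few exceptional large primes -/
lemma part2J (hs : S_SIE) (hH : S_HAL) (hL : LamP) {A B : Ei} (hA : PS A) (hB : PS B)
    (hAB : A ≠ B) : ∃ C : ℝ, 0 ≤ C ∧ ∀ᶠ X : ℕ in atTop,
    ((LV A B X (zz X) ⌊eL X / 200⌋₊).card : ℝ) ≤ C * X * Real.exp (-(3 / 5) * eL X) := by
  obtain ⟨C, hC0, hC⟩ := mert
  obtain ⟨C', hC'1, hC'⟩ := hs
  obtain ⟨C₂, hC₂1, hC₂⟩ := hH hL
  obtain ⟨D, hD⟩ : ∃ D, D = C₂ * (lg (nrm A * nrm B)) ^ (1 / 6 : ℝ) := ⟨_, rfl⟩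
  have hlg := one_le_lg (nrm A * nrm B)
  have hD0 : 0 ≤ D := by
    rw [hD]
    positivity
  refine ⟨C' * (Real.exp (2 * C) * (2 + C) * D), by positivity, ?_⟩
  filter_upwards [eL_tendsto.eventually (log_small 4 (1 / 100) (by norm_num)),
    eL_tendsto.eventually (eventually_ge_atTop 2), eventually_ge_atTop 3] with X h1 h2 h3
  set l := eL X with hl
  have h4 : Pm (zz X) ≤ Real.log (Real.log (zz X)) + C := hC (zz X) (zz_ge h2)
  have h5 := loglog_zz h2
  have h6 : Pm X ≤ l + C := hC X h3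
  rw [← hl] at h5
  have h7 := hC' X (LV A B X (zz X) ⌊l / 200⌋₊) (by omega)
    (fun S hS => ⟨fun p hp => ((mem_LV.1 hS).2.1 p hp).1, (mem_LV.1 hS).2.2.1⟩)
    (fun S hS T hT => LV_sub hS hT)
  have h8 := LV_sum A B X (zz X) ⌊l / 200⌋₊
  have hlX : Real.log X = Real.exp l := by
    have := rpow_eq (X := X) h2 1
    rwa [Real.rpow_one, one_mul] at this
  have hlX3 : (Real.log X) ^ (1 / 3 : ℝ) = Real.exp (1 / 3 * l) := rpow_eq (X := X) h2 (1 / 3)
  have h8' := hC₂ A B X hA hB hAB (by omega)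
  rw [← hD, hlX3] at h8'
  rw [hlX] at h7
  have h9 : (32 : ℝ) ^ ⌊l / 200⌋₊ ≤ Real.exp (35 / 2000 * l) := by
    have e1 : (32 : ℝ) = Real.exp (Real.log 32) := (Real.exp_log (by norm_num)).symm
    rw [e1, ← Real.exp_nat_mul]
    apply Real.exp_le_exp.2
    have e2 : ((⌊l / 200⌋₊ : ℕ) : ℝ) ≤ l / 200 := Nat.floor_le (by positivity)
    have e3 : Real.log 32 ≤ 35 / 10 := by
      have : (32 : ℝ) = 2 ^ 5 := by norm_num
      rw [this, Real.log_pow]
      have := Real.log_two_lt_d9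
      push_cast
      linarith
    have e4 : 0 ≤ Real.log 32 := Real.log_nonneg (by norm_num)
    calc ((⌊l / 200⌋₊ : ℕ) : ℝ) * Real.log 32 ≤ (l / 200) * (35 / 10) :=
          mul_le_mul e2 e3 e4 (by positivity)
      _ = _ := by ring
  have h10 : l = Real.exp (Real.log l) := (Real.exp_log (by linarith)).symm
  have hPX := Pm_nonneg X
  have h11 : 1 + Pm X ≤ (2 + C) * l := by nlinarith
  have h12 : Real.exp (Pm (zz X)) ≤ Real.exp (3 * Real.log l + C) := Real.exp_le_exp.2 (by linarith)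
  have h13 : Real.exp (1 / 32 * Pm X) ≤ Real.exp (1 / 32 * l + C) :=
    Real.exp_le_exp.2 (by linarith)
  have hHD0 : 0 ≤ ∑ S ∈ HD A B X, (1 : ℝ) / ((∏ p ∈ S, p : ℕ) : ℝ) :=
    sum_nonneg fun S _ => by positivity
  have h14 : Real.exp (Pm (zz X)) * ((1 + Pm X) * ((32 ^ ⌊l / 200⌋₊ * Real.exp (1 / 32 * Pm X)) *
        ∑ S ∈ HD A B X, (1 : ℝ) / ((∏ p ∈ S, p : ℕ) : ℝ))) ≤
      Real.exp (2 * C) * (2 + C) * D * Real.exp (2 / 5 * l) := by
    calc _ ≤ Real.exp (3 * Real.log l + C) * (((2 + C) * l) *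
          ((Real.exp (35 / 2000 * l) * Real.exp (1 / 32 * l + C)) * (D * Real.exp (1 / 3 * l)))) := by
          gcongr
      _ = (2 + C) * D * (Real.exp (3 * Real.log l + C) * (l * (Real.exp (35 / 2000 * l) *
          Real.exp (1 / 32 * l + C) * Real.exp (1 / 3 * l)))) := by ring
      _ = (2 + C) * D * (Real.exp (3 * Real.log l + C) * (Real.exp (Real.log l) *
          (Real.exp (35 / 2000 * l) * Real.exp (1 / 32 * l + C) * Real.exp (1 / 3 * l)))) := by
          rw [← h10]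
      _ = (2 + C) * D * Real.exp (3 * Real.log l + C + (Real.log l +
          (35 / 2000 * l + (1 / 32 * l + C) + 1 / 3 * l))) := by
          rw [← Real.exp_add, ← Real.exp_add, ← Real.exp_add, ← Real.exp_add]
      _ ≤ (2 + C) * D * Real.exp (2 * C + 2 / 5 * l) := by
          apply mul_le_mul_of_nonneg_left _ (by positivity)
          apply Real.exp_le_exp.2
          linarith
      _ = _ := by
          rw [Real.exp_add]
          ring
  have h15 : ((LV A B X (zz X) ⌊l / 200⌋₊).card : ℝ) * Real.exp l ≤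
      C' * X * (Real.exp (2 * C) * (2 + C) * D * Real.exp (2 / 5 * l)) := by
    refine h7.trans ?_
    exact mul_le_mul_of_nonneg_left (h8.trans h14) (by positivity)
  have h16 : (C' * (Real.exp (2 * C) * (2 + C) * D) * X * Real.exp (-(3 / 5) * l)) * Real.exp l =
      C' * X * (Real.exp (2 * C) * (2 + C) * D * Real.exp (2 / 5 * l)) := by
    have : Real.exp (2 / 5 * l) = Real.exp (-(3 / 5) * l) * Real.exp l := by
      rw [← Real.exp_add]
      congr 1
      ring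
    rw [this]
    ring
  rw [← h16] at h15
  exact le_of_mul_le_mul_right h15 (Real.exp_pos _)

/-- **JC-FEW.** -/
theorem t_JFEW : S_JFEW := by
  intro hL hs hH T v K R hT hv
  have e3 : Sf false T = T := by unfold Sf; rw [if_neg (by simp)]
  have hdP := dtP hL hT false v
  have hdQ := dtQ hL hT false v
  have hAB : AA (Sf false T) (Pf false v) ≠ AA (Sf false T) (Qf false v) := by
    obtain ⟨u, hu, huv⟩ := hv
    have hu' : u ∈ Sf false T := by rw [e3]; exact hu
    exact hdP.ne hdQ hu' (PQ_ne hL hT false v hu' huv)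
  obtain ⟨δ, hδ⟩ : ∃ δ : ℝ, δ = 1 / (400 * (K + 1)) := ⟨_, rfl⟩
  have hδ0 : 0 < δ := by
    rw [hδ]
    positivity
  obtain ⟨C₁, hC₁, h1⟩ := part1g δ hδ0
  obtain ⟨C₂, hC₂, h2⟩ := part2J hs hH hL hdP.ps hdQ.ps hAB
  have h3 := (h1.and h2).and (eL_tendsto.eventually (eventually_ge_atTop
    (max 2 (400 * (R : ℝ) + ∑ t ∈ T, (t : ℝ)))))
  rw [eventually_atTop] at h3
  obtain ⟨X₀, hX₀⟩ := h3
  refine ⟨C₁ + C₂, X₀, fun X hX => ?_⟩
  obtain ⟨⟨h4, h5⟩, h6⟩ := hX₀ X hX
  have h7 : 2 ≤ eL X := (le_max_left _ _).trans h6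
  have h8' : 400 * (R : ℝ) + ∑ t ∈ T, (t : ℝ) ≤ eL X := (le_max_right _ _).trans h6
  have hTs : ∀ t ∈ T, (t : ℝ) ≤ ∑ t ∈ T, (t : ℝ) := fun t ht =>
    single_le_sum (f := fun t : ℕ => (t : ℝ)) (fun _ _ => Nat.cast_nonneg _) ht
  have hT0 : 0 ≤ ∑ t ∈ T, (t : ℝ) := sum_nonneg fun _ _ => Nat.cast_nonneg _
  have h8 : 400 * (R : ℝ) ≤ eL X := by linarith
  have hTz : ∀ t ∈ T, t ≤ zz X := by
    intro t ht
    unfold zz
    apply Nat.le_floor
    have e1 := Real.add_one_le_exp ((eL X) ^ 3)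
    have e2 : eL X ≤ (eL X) ^ 3 := by
      calc eL X = (eL X) ^ 1 := (pow_one _).symm
        _ ≤ _ := pow_le_pow_right₀ (by linarith) (by norm_num)
    have e4 := hTs t ht
    have e5 : (0 : ℝ) ≤ R := Nat.cast_nonneg _
    linarith
  rw [rpow_eq h7]
  have h9 : ((SS X).filter fun S => ((la (zz X) S).filter fun p => p % 3 = 1 ∧
      ∑ t ∈ T, v t * lam p t ≠ 0).card < K * (sm (zz X) S).card + R) ⊆
      ((SS X).filter fun S => δ * eL X < ((sm (zz X) S).card : ℝ)) ∪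
        LV (AA (Sf false T) (Pf false v)) (AA (Sf false T) (Qf false v)) X (zz X)
          ⌊eL X / 200⌋₊ := by
    intro S hS
    rw [mem_filter] at hS
    rw [mem_union, mem_filter]
    by_cases hc : δ * eL X < ((sm (zz X) S).card : ℝ)
    · exact Or.inl ⟨hS.1, hc⟩
    · right
      rw [not_lt] at hc
      obtain ⟨a1, a2, a3⟩ := SS_mem hS.1
      rw [mem_LV]
      refine ⟨?_, a1, a3, a2.le, ?_⟩
      · intro p hp
        rw [mem_range]
        have := le_of_mem_prod (fun p hp => (a1 p hp).1) a3 hp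
        omega
      · apply Nat.le_floor
        have h11 : ((la (zz X) S).filter fun p => p % 3 = 1 ∧
            Exc (AA (Sf false T) (Pf false v)) (AA (Sf false T) (Qf false v)) p).card ≤
            ((la (zz X) S).filter fun p => p % 3 = 1 ∧ ∑ t ∈ T, v t * lam p t ≠ 0).card := by
          refine card_le_card fun p hp => ?_
          rw [mem_filter] at hp ⊢
          obtain ⟨hp1, hp2, hp3⟩ := hp
          refine ⟨hp1, hp2, fun h0 => hp3 ?_⟩
          have hpla := mem_filter.1 hp1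
          have hpT : p ∉ T := fun h' => hpla.2 (hTz p h')
          obtain ⟨e1, e2⟩ := xab_val hL hT false v (a1 p hpla.1).1 hp2 hpT
          rw [e3] at e1 e2 ⊢
          simp only [Bool.false_eq_true, if_false] at e1 e2
          rw [h0, ez_zero] at e1
          have h4 : ∑ u ∈ T, v u * -lam p u = 0 := by
            simp only [mul_neg, sum_neg_distrib, h0, neg_zero]
          rw [h4, ez_zero] at e2
          exact ⟨e1, e2⟩
        have h12 : ((((la (zz X) S).filter fun p => p % 3 = 1 ∧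
            Exc (AA (Sf false T) (Pf false v)) (AA (Sf false T) (Qf false v)) p).card : ℕ) : ℝ) ≤
            (K : ℝ) * ((sm (zz X) S).card : ℝ) + R := by
          have := h11.trans hS.2.le
          exact_mod_cast this
        refine h12.trans ?_
        have hK0 : (0 : ℝ) ≤ K := Nat.cast_nonneg _
        have h13 : (K : ℝ) * ((sm (zz X) S).card : ℝ) ≤ K * (δ * eL X) :=
          mul_le_mul_of_nonneg_left hc hK0
        have h14 : (K : ℝ) * (δ * eL X) ≤ eL X / 400 := by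
          rw [hδ]
          have e5 : (K : ℝ) * (1 / (400 * (K + 1)) * eL X) = (K / (K + 1)) * (eL X / 400) := by
            field_simp
          rw [e5]
          have e6 : (K : ℝ) / (K + 1) ≤ 1 := by
            rw [div_le_one (by positivity)]
            linarith
          exact mul_le_of_le_one_left (by positivity) e6
        linarith
  have h10 : (((SS X).filter fun S => ((la (zz X) S).filter fun p => p % 3 = 1 ∧
      ∑ t ∈ T, v t * lam p t ≠ 0).card < K * (sm (zz X) S).card + R).card : ℝ) ≤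
      (((SS X).filter fun S => δ * eL X < ((sm (zz X) S).card : ℝ)).card : ℝ) +
        ((LV (AA (Sf false T) (Pf false v)) (AA (Sf false T) (Qf false v)) X (zz X)
          ⌊eL X / 200⌋₊).card : ℝ) := by
    exact_mod_cast (card_le_card h9).trans (card_union_le _ _)
  refine h10.trans ((add_le_add h4 h5).trans (le_of_eq ?_))
  ring

end Pool.Agent.X253.JC
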