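import Pool.Agent.Y911.CX.KEY
import Pool.Agent.X253.JC.Stm

/-! JC-KEY: the joint sum over the boxes (after `Pool.Agent.Y911.CX.KEY`). -/

set_option autoImplicit false

open scoped Classical

namespace Pool.Agent.X253.JC

open Finset
open Pool.Agent.Y703.CX
open Pool.Agent.Y911.CX (ph ky KP le_XX CC mem_CC sm_fill la_fill rr_facts inj_ph
  rr_iff key_bij CC_facts hb_box prs_card card_sub TT mem_TT harm_TT)

/-- the statement for the boxes with the constants fixed -/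
def BX (M : ℕ) (ε : ℝ) (R : ℕ) : Prop := ∀
  (ι : Type) [Fintype ι] (J1 : Finset ι) (C : ι → Finset ℕ) (X : ι → ℕ) (κ : ℝ)
  (S₀ T : Finset ℕ) (m : Fin M → ℕ → ZMod 3), OkM T m → T ⊆ S₀ → 0 ≤ κ →
  (∀ i, (C i).card ≤ X i) → HB J1 C X κ → (∀ u ∈ S₀, u.Prime ∧ u ≠ 3) →
  (∀ i, ∀ p ∈ C i, p.Prime ∧ p ∉ S₀ ∧ (i ∈ J1 → p % 3 = 1) ∧ (i ∉ J1 → p % 3 = 2)) →
  (∀ i l, i ≠ l → Disjoint (C i) (C l)) → J1.Nonempty →
  (S₀.filter fun p => p % 3 = 2).card + (univ \ J1).card = 1 →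
  |(((Fintype.piFinset C).filter fun p => NdJ R T m S₀ (univ.image p) ∧
      GdJ m (S₀ ∪ univ.image p)).card : ℝ) -
      c3 ^ M * (((Fintype.piFinset C).filter fun p => NdJ R T m S₀ (univ.image p)).card : ℝ)| ≤
    ε * (((Fintype.piFinset C).filter fun p => NdJ R T m S₀ (univ.image p)).card : ℝ) +
    3 ^ (2 * S₀.card * Fintype.card ι + (prs J1).card) * (κ * ∏ j, (X j : ℝ))

theorem box_decJ {M : ℕ} {ε : ℝ} {R : ℕ} (hBOX : BX M ε R) (ι : Type) [Fintype ι]
    [inst : DecidableEq ι] (J1 : Finset ι) (C : ι → Finset ℕ) (X : ι → ℕ) (κ : ℝ)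
    (S₀ T : Finset ℕ) (m : Fin M → ℕ → ZMod 3) (g1 : OkM T m) (g2 : T ⊆ S₀) (h1 : 0 ≤ κ)
    (h2 : ∀ i, (C i).card ≤ X i) (h3 : HB J1 C X κ) (h4 : ∀ u ∈ S₀, u.Prime ∧ u ≠ 3)
    (h5 : ∀ i, ∀ p ∈ C i, p.Prime ∧ p ∉ S₀ ∧ (i ∈ J1 → p % 3 = 1) ∧ (i ∉ J1 → p % 3 = 2))
    (h6 : ∀ i l, i ≠ l → Disjoint (C i) (C l)) (h7 : J1.Nonempty)
    (h8 : (S₀.filter fun p => p % 3 = 2).card + (univ \ J1).card = 1) :
    |(((Fintype.piFinset C).filter fun p => NdJ R T m S₀ (univ.image p) ∧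
      GdJ m (S₀ ∪ univ.image p)).card : ℝ) -
      c3 ^ M * (((Fintype.piFinset C).filter fun p => NdJ R T m S₀ (univ.image p)).card : ℝ)| ≤
    ε * (((Fintype.piFinset C).filter fun p => NdJ R T m S₀ (univ.image p)).card : ℝ) +
    3 ^ (2 * S₀.card * Fintype.card ι + (prs J1).card) * (κ * ∏ j, (X j : ℝ)) := by
  have e : inst = fun a b => Classical.propDecidable _ := Subsingleton.elim _ _
  subst e
  exact hBOX ι J1 C X κ S₀ T m g1 g2 h1 h2 h3 h4 h5 h6 h7 h8

theorem per_keyJ {M : ℕ} {ε : ℝ} {R : ℕ} (hε : 0 < ε) (hBOX : BX M ε R) {X z H K V : ℕ}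
    (hH : 1 ≤ H) {κ : ℝ} (hκ : 0 ≤ κ) {T : Finset ℕ} {m : Fin M → ℕ → ZMod 3} (g1 : OkM T m)
    (g3 : ∀ t ∈ T, t ≤ z)
    {S₀ : Finset ℕ} {J : Finset (ℕ × ℕ)} (hk : KP X z H K V S₀ J)
    (hHB : HB (univ.filter fun e : J => e.1.2 % 3 = 1) (fun i : J => CC z H i)
      (fun i => XX H i.1.1) κ) :
    |(((RR X z H K V).filter fun S => ky z H S = (S₀, J) ∧
        (T ⊆ S ∧ NdJ R T m (sm z S) (la z S) ∧ GdJ m S)).card : ℝ) -
      c3 ^ M * (((RR X z H K V).filter fun S => ky z H S = (S₀, J) ∧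
        (T ⊆ S ∧ NdJ R T m (sm z S) (la z S))).card : ℝ)| ≤
    ε * (((RR X z H K V).filter fun S => ky z H S = (S₀, J) ∧ T ⊆ S).card : ℝ) +
      (3 ^ (3 * K ^ 2) * κ) * (X / ((∏ p ∈ S₀, p : ℕ) : ℝ)) := by
  have hTS : ∀ S : Finset ℕ, ky z H S = (S₀, J) → (T ⊆ S ↔ T ⊆ S₀) := by
    intro S hS
    have h0 : sm z S = S₀ := congrArg Prod.fst hS
    rw [← h0]
    constructor
    · intro h t ht
      exact Finset.mem_filter.2 ⟨h ht, g3 t ht⟩
    · intro h t ht
      exact (Finset.mem_filter.1 (h ht)).1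
  by_cases g2 : T ⊆ S₀
  swap
  · have e1 : ((RR X z H K V).filter fun S => ky z H S = (S₀, J) ∧
        (T ⊆ S ∧ NdJ R T m (sm z S) (la z S) ∧ GdJ m S)) = ∅ := by
      rw [Finset.filter_eq_empty_iff]
      rintro S - ⟨h1, h2, -⟩
      exact g2 ((hTS S h1).1 h2)
    have e2 : ((RR X z H K V).filter fun S => ky z H S = (S₀, J) ∧
        (T ⊆ S ∧ NdJ R T m (sm z S) (la z S))) = ∅ := by
      rw [Finset.filter_eq_empty_iff]
      rintro S - ⟨h1, h2, -⟩
      exact g2 ((hTS S h1).1 h2)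
    rw [e1, e2, Finset.card_empty, Nat.cast_zero, mul_zero, sub_zero, abs_zero]
    positivity
  set J1 : Finset J := univ.filter fun e : J => e.1.2 % 3 = 1 with hJ1
  have c1 : ∀ c, (univ.filter fun e : J => e.1.2 % 3 = c).card =
      (J.filter fun e => e.2 % 3 = c).card := by
    intro c
    rw [← Finset.card_map (Function.Embedding.subtype (· ∈ J))]
    congr 1
    ext x
    simp only [Finset.mem_map, Finset.mem_filter, Finset.mem_univ, true_and,
      Function.Embedding.coe_subtype]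
    constructor
    · rintro ⟨u, hu, rfl⟩
      exact ⟨u.2, hu⟩
    · rintro ⟨h, h'⟩
      exact ⟨⟨x, h⟩, h', rfl⟩
  have c2 : univ \ J1 = univ.filter fun e : J => e.1.2 % 3 = 2 := by
    ext e
    rw [Finset.mem_sdiff, hJ1, Finset.mem_filter, Finset.mem_filter]
    have := hk.ne e e.2
    simp only [Finset.mem_univ, true_and]
    omega
  have hfew : S₀.card + V < J1.card := by
    rw [hJ1, c1]
    exact hk.few
  have hbox := box_decJ hBOX J J1 (fun i => CC z H i) (fun i => XX H i.1.1) κ S₀ T m g1 g2 hκ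
    (fun i => by
      refine (Finset.card_filter_le _ _).trans ?_
      rw [Nat.card_Icc]
      omega)
    hHB hk.pr
    (fun i p hp => by
      obtain ⟨h3, h3', h4, h5⟩ := CC_facts hH hp
      refine ⟨h3, fun h => ?_, fun h => ?_, fun h => ?_⟩
      · have := hk.le p h
        omega
      · exact h5.trans (Finset.mem_filter.1 h).2
      · have h6 : ¬ i.1.2 % 3 = 1 := fun h' => h (Finset.mem_filter.2 ⟨Finset.mem_univ _, h'⟩)
        have h7 := hk.ne i i.2
        omega)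
    (fun i l hil => by
      rw [Finset.disjoint_left]
      intro p hp hp'
      have h5 := ((mem_CC hH).1 hp).2.2
      have h6 := ((mem_CC hH).1 hp').2.2
      exact hil (Subtype.ext (h5.symm.trans h6)))
    (by
      rw [← Finset.card_pos]
      omega)
    (by
      rw [c2, c1]
      exact hk.one)
  have hTp : ∀ p : J → ℕ, T ⊆ S₀ ∪ univ.image p := fun p => g2.trans Finset.subset_union_left
  have e1 : ((Fintype.piFinset fun i : J => CC z H i).filter fun p =>
      NdJ R T m S₀ (univ.image p) ∧ GdJ m (S₀ ∪ univ.image p)).card =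
      ((RR X z H K V).filter fun S => ky z H S = (S₀, J) ∧
        (T ⊆ S ∧ NdJ R T m (sm z S) (la z S) ∧ GdJ m S)).card := by
    rw [← key_bij hH hk (fun S => T ⊆ S ∧ NdJ R T m (sm z S) (la z S) ∧ GdJ m S)]
    congr 1
    refine Finset.filter_congr fun p hp => ?_
    rw [Fintype.mem_piFinset] at hp
    rw [sm_fill hH hk.le hp, la_fill hH hk.le hp]
    exact ⟨fun h => ⟨hTp p, h⟩, fun h => h.2⟩
  have e2 : ((Fintype.piFinset fun i : J => CC z H i).filter fun p =>
      NdJ R T m S₀ (univ.image p)).card =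
      ((RR X z H K V).filter fun S => ky z H S = (S₀, J) ∧
        (T ⊆ S ∧ NdJ R T m (sm z S) (la z S))).card := by
    rw [← key_bij hH hk (fun S => T ⊆ S ∧ NdJ R T m (sm z S) (la z S))]
    congr 1
    refine Finset.filter_congr fun p hp => ?_
    rw [Fintype.mem_piFinset] at hp
    rw [sm_fill hH hk.le hp, la_fill hH hk.le hp]
    exact ⟨fun h => ⟨hTp p, h⟩, fun h => h.2⟩
  rw [e1, e2] at hbox
  refine hbox.trans (add_le_add ?_ ?_)
  · have h4 : (((RR X z H K V).filter fun S => ky z H S = (S₀, J) ∧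
        (T ⊆ S ∧ NdJ R T m (sm z S) (la z S))).card : ℝ) ≤
        (((RR X z H K V).filter fun S => ky z H S = (S₀, J) ∧ T ⊆ S).card : ℝ) := by
      have : (RR X z H K V).filter (fun S => ky z H S = (S₀, J) ∧
          (T ⊆ S ∧ NdJ R T m (sm z S) (la z S))) ⊆
          (RR X z H K V).filter fun S => ky z H S = (S₀, J) ∧ T ⊆ S := by
        intro S hS
        rw [Finset.mem_filter] at hS ⊢
        exact ⟨hS.1, hS.2.1, hS.2.2.1⟩
      exact_mod_cast Finset.card_le_card this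
    gcongr
  · have hcJ : Fintype.card J = J.card := Fintype.card_coe J
    have hcard := hk.card
    have hJK : J.card ≤ K := by omega
    have hSK : S₀.card ≤ K := by omega
    have hpr : (prs J1).card ≤ K * K := by
      refine (prs_card J1).trans ?_
      rw [hcJ]
      exact Nat.mul_le_mul hJK hJK
    have hexp : 2 * S₀.card * Fintype.card J + (prs J1).card ≤ 3 * K ^ 2 := by
      rw [hcJ]
      have h5 : S₀.card * J.card ≤ K * K := Nat.mul_le_mul hSK hJK
      calc 2 * S₀.card * J.card + (prs J1).card ≤ 2 * (K * K) + K * K := by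
            rw [mul_assoc]
            omega
        _ = 3 * K ^ 2 := by ring
    have h5 : (3 : ℝ) ^ (2 * S₀.card * Fintype.card J + (prs J1).card) ≤ 3 ^ (3 * K ^ 2) :=
      pow_le_pow_right₀ (by norm_num) hexp
    have hN0 : (0 : ℝ) < ((∏ p ∈ S₀, p : ℕ) : ℝ) := by
      exact_mod_cast Finset.prod_pos fun p hp => (hk.pr p hp).1.pos
    have hprod : ∏ j : J, (XX H j.1.1 : ℝ) ≤ X / ((∏ p ∈ S₀, p : ℕ) : ℝ) := by
      have h5 : ∏ j : J, (XX H j.1.1 : ℝ) = ((∏ k ∈ J, XX H k.1 : ℕ) : ℝ) := by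
        rw [← Finset.prod_coe_sort J (fun k => XX H k.1)]
        push_cast
        rfl
      rw [h5, le_div_iff₀ hN0, mul_comm]
      exact_mod_cast hk.prod
    calc (3 : ℝ) ^ (2 * S₀.card * Fintype.card J + (prs J1).card) *
        (κ * ∏ j : J, (XX H j.1.1 : ℝ)) ≤
        3 ^ (3 * K ^ 2) * (κ * (X / ((∏ p ∈ S₀, p : ℕ) : ℝ))) := by gcongr
      _ = _ := by ring

/-- **JC-KEY.** -/
theorem t_JKEY : S_JKEY := by
  intro hL hB1 hB2 hEQ hLA hBOX M ε hε
  obtain ⟨C₁, hC₁, h1⟩ := hB1 hL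
  obtain ⟨C₂, hC₂, h2⟩ := hB2 hL
  obtain ⟨R, hR⟩ := hBOX hEQ hLA M ε hε
  refine ⟨R, max C₁ C₂, hC₁.trans (le_max_left _ _), ?_⟩
  intro X z H K V N κ T m g1 g3 hX hH hz hκ hκz hN
  set U := (RR X z H K V).image (ky z H) with hU
  set B : ℝ := 3 ^ (3 * K ^ 2) * κ with hB
  have hB0 : 0 ≤ B := by positivity
  have hfib : ∀ (P : Finset ℕ → Prop) [DecidablePred P], (((RR X z H K V).filter fun S => P S).card : ℝ) =
      ∑ k ∈ U, (((RR X z H K V).filter fun S => ky z H S = k ∧ P S).card : ℝ) := by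
    intro P _
    rw [Finset.card_eq_sum_card_fiberwise (f := ky z H) (t := U) (by
      intro S hS
      rw [Finset.mem_coe, Finset.mem_filter] at hS
      exact Finset.mem_coe.2 (Finset.mem_image_of_mem _ hS.1))]
    push_cast
    refine Finset.sum_congr rfl fun k _ => ?_
    congr 2
    ext S
    simp only [Finset.mem_filter]
    tauto
  have hKP : ∀ k ∈ U, KP X z H K V k.1 k.2 := by
    intro k hk
    rw [hU, Finset.mem_image] at hk
    obtain ⟨S, hS, rfl⟩ := hk
    obtain ⟨f1, f2, f3⟩ := rr_facts hS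
    exact (rr_iff hH f1 (inj_ph f2)).1 hS
  have hf1 := hfib fun S => T ⊆ S ∧ NdJ R T m (sm z S) (la z S) ∧ GdJ m S
  have hf2 := hfib fun S => T ⊆ S ∧ NdJ R T m (sm z S) (la z S)
  have hf3 := hfib fun S => T ⊆ S
  rw [hf1, hf2, hf3, Finset.mul_sum, ← Finset.sum_sub_distrib]
  refine (Finset.abs_sum_le_sum_abs _ _).trans ?_
  have h3 : ∀ k ∈ U, |(((RR X z H K V).filter fun S => ky z H S = k ∧
        (T ⊆ S ∧ NdJ R T m (sm z S) (la z S) ∧ GdJ m S)).card : ℝ) -
      c3 ^ M * (((RR X z H K V).filter fun S => ky z H S = k ∧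
        (T ⊆ S ∧ NdJ R T m (sm z S) (la z S))).card : ℝ)| ≤
      ε * (((RR X z H K V).filter fun S => ky z H S = k ∧ T ⊆ S).card : ℝ) +
      B * (X / ((∏ p ∈ k.1, p : ℕ) : ℝ)) := by
    intro k hk
    obtain ⟨S₀, J⟩ := k
    have hk' := hKP _ hk
    exact per_keyJ hε hR hH hκ g1 g3 hk' (hb_box h1 h2 hH hz hκ ((le_max_left _ _).trans hκz)
      ((le_max_right _ _).trans hκz) hk'.ne)
  refine (Finset.sum_le_sum h3).trans ?_
  rw [Finset.sum_add_distrib, ← Finset.mul_sum]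
  refine add_le_add le_rfl ?_
  have hsub : U ⊆ (TT X) ×ˢ ((range N ×ˢ range 9).powerset.filter fun J => J.card ≤ K) := by
    intro k hk
    have hk' := hKP k hk
    rw [hU, Finset.mem_image] at hk
    obtain ⟨S, hS, rfl⟩ := hk
    obtain ⟨f1, f2, f3⟩ := rr_facts hS
    rw [Finset.mem_product, Finset.mem_filter, Finset.mem_powerset]
    refine ⟨mem_TT (fun q hq => (hk'.pr q hq).1) ?_, ?_, ?_⟩
    · refine le_trans ?_ f3
      exact Nat.le_of_dvd (Finset.prod_pos fun p hp => (f1 p hp).pos)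
        (Finset.prod_dvd_prod_of_subset _ _ _ (Finset.filter_subset _ _))
    · intro e he
      unfold ky at he
      rw [Finset.mem_image] at he
      obtain ⟨q, hq, rfl⟩ := he
      have hqS := (Finset.mem_filter.1 hq).1
      have hq0 := (f1 q hqS).pos
      have hqX : q ≤ X := by
        refine le_trans ?_ f3
        exact Nat.le_of_dvd (Finset.prod_pos fun p hp => (f1 p hp).pos)
          (Finset.dvd_prod_of_mem _ hqS)
      unfold ph
      rw [Finset.mem_product, Finset.mem_range, Finset.mem_range]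
      refine ⟨?_, Nat.mod_lt _ (by norm_num)⟩
      have h3 : ((jj H q : ℕ) : ℝ) < N := by
        refine lt_of_le_of_lt (Nat.floor_le (mul_nonneg (Nat.cast_nonneg _)
          (Real.log_nonneg (by exact_mod_cast hq0)))) ?_
        refine lt_of_le_of_lt ?_ hN
        refine mul_le_mul_of_nonneg_left ?_ (Nat.cast_nonneg _)
        exact Real.log_le_log (by exact_mod_cast hq0) (by exact_mod_cast hqX)
      exact_mod_cast h3
    · have := hk'.card
      omega
  refine (Finset.sum_le_sum_of_subset_of_nonneg hsub fun _ _ _ => by positivity).trans ?_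
  rw [Finset.sum_product]
  simp only [Finset.sum_const, nsmul_eq_mul]
  rw [← Finset.mul_sum]
  have h4 : ((((range N ×ˢ range 9).powerset.filter fun J => J.card ≤ K).card : ℕ) : ℝ) ≤
      (9 * N + 9 : ℝ) ^ K := by
    have h5 := card_sub (range N ×ˢ range 9) K
    rw [Finset.card_product, Finset.card_range, Finset.card_range] at h5
    calc ((((range N ×ˢ range 9).powerset.filter fun J => J.card ≤ K).card : ℕ) : ℝ) ≤
          (((N * 9 + 1) ^ K : ℕ) : ℝ) := by exact_mod_cast h5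
      _ = (N * 9 + 1 : ℝ) ^ K := by push_cast; ring
      _ ≤ _ := by
        apply pow_le_pow_left₀ (by positivity)
        linarith
  have h5 : ∑ S ∈ TT X, B * (X / ((∏ p ∈ S, p : ℕ) : ℝ)) ≤ B * (X * (1 + Real.log X)) := by
    have h6 : ∀ S ∈ TT X, B * ((X : ℝ) / ((∏ p ∈ S, p : ℕ) : ℝ)) =
        B * X * (1 / ((∏ p ∈ S, p : ℕ) : ℝ)) := by
      intro S _
      ring
    rw [Finset.sum_congr rfl h6, ← Finset.mul_sum]
    have h7 := mul_le_mul_of_nonneg_left (harm_TT X) (mul_nonneg hB0 (Nat.cast_nonneg X))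
    refine h7.trans (le_of_eq ?_)
    ring
  have h6 : 0 ≤ ∑ S ∈ TT X, B * ((X : ℝ) / ((∏ p ∈ S, p : ℕ) : ℝ)) :=
    Finset.sum_nonneg fun _ _ => by positivity
  rw [mul_assoc]
  gcongr

end Pool.Agent.X253.JC
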