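import Pool.Agent.X253.JC.LA4

/-!
# Project JC: linear algebra (S_JLA), the end
-/

set_option autoImplicit false
set_option linter.unusedSectionVars false

open scoped Classical

namespace Pool.Agent.X253.JC

open Function Module Finset
open Pool.Agent.Y703.CX
open Pool.Agent.Y759.CX (fr fr_equiv fr_nonneg fr_le_one fr_mono fr_not fr_prod fr_comp fr_exists
  fr_single card_mod pm pm_nonneg pm_le_one fr_inj F dt dt_ks dt_of mB mB_surj mT mT_apply mT_bij
  card_ne)

lemma pow_diff {a b : ℝ} (ha : 0 ≤ a) (ha1 : a ≤ 1) (hb : 0 ≤ b) (hb1 : b ≤ 1) (M : ℕ) :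
    |a ^ M - b ^ M| ≤ M * |a - b| := by
  induction M with
  | zero => simp
  | succ M ih =>
    have e : a ^ (M + 1) - b ^ (M + 1) = (a ^ M - b ^ M) * a + b ^ M * (a - b) := by ring
    rw [e]
    refine (abs_add_le _ _).trans ?_
    rw [abs_mul, abs_mul, abs_of_nonneg ha, abs_of_nonneg (pow_nonneg hb M)]
    have h1 : |a ^ M - b ^ M| * a ≤ M * |a - b| := by
      calc |a ^ M - b ^ M| * a ≤ |a ^ M - b ^ M| * 1 :=
            mul_le_mul_of_nonneg_left ha1 (abs_nonneg _)
        _ ≤ _ := by rw [mul_one]; exact ih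
    have h2 : b ^ M * |a - b| ≤ |a - b| :=
      mul_le_of_le_one_left (abs_nonneg _) (pow_le_one₀ hb hb1)
    push_cast
    linarith

theorem t_JLA (h3 : S_C3) : S_JLA := by
  intro M ε hε
  obtain ⟨K, hK⟩ : ∃ K : ℝ, K = 2 * M + 2 ^ M * M := ⟨_, rfl⟩
  have hK0 : 0 ≤ K := by
    rw [hK]
    positivity
  obtain ⟨r, hr⟩ : ∃ r : ℕ, K * (1 / 3 : ℝ) ^ r ≤ ε := by
    obtain ⟨r, hr⟩ := exists_pow_lt_of_lt_one (show (0 : ℝ) < ε / (K + 1) by positivity)
      (show (1 / 3 : ℝ) < 1 by norm_num)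
    refine ⟨r, ?_⟩
    rw [lt_div_iff₀ (by positivity)] at hr
    have : 0 ≤ (1 / 3 : ℝ) ^ r := by positivity
    nlinarith
  refine ⟨(M + 2) * r + 1, ?_⟩
  intro U J _ _ U1 J1 ks hcard hJ m hm A B C hB hC hJ1 hsep
  obtain ⟨u, hu⟩ : ∃ u, u = Fintype.card U := ⟨_, rfl⟩
  rw [← hu] at hJ1 hsep hcard
  have hJc : 1 ≤ Fintype.card J := Fintype.card_pos_iff.2 ⟨ks⟩
  -- the rows
  obtain ⟨G0, hG0, hG0c, hG0i⟩ := few_rows J1 C u ⊤ (by
      rw [finrank_top, finrank_fintype_fun_eq_card, hu]) (fun w _ hw => by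
      refine hC w ?_
      by_contra hc
      push Not at hc
      exact hw (funext hc))
  have hM0 : u ≤ (2 * M + 2) * u := Nat.le_mul_of_pos_left _ (by omega)
  have hM1 : 2 * u ≤ (2 * M + 2) * u := Nat.mul_le_mul_right _ (by omega)
  have hr0 : r ≤ (M + 2) * r := Nat.le_mul_of_pos_left _ (by omega)
  obtain ⟨H, hH, hHc⟩ : ∃ H ⊆ J1 \ G0, H.card = u + r := by
    refine exists_subset_card_eq ?_
    have := le_card_sdiff G0 J1
    omega
  have hHJ : H ⊆ J1 := hH.trans sdiff_subset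
  obtain ⟨G, hGd⟩ : ∃ G, G = J1 \ H := ⟨_, rfl⟩
  have hGJ : G ⊆ J1 := by
    rw [hGd]
    exact sdiff_subset
  have hG0G : G0 ⊆ G := by
    intro k hk
    rw [hGd, mem_sdiff]
    exact ⟨hG0 hk, fun h => (mem_sdiff.1 (hH h)).2 hk⟩
  have hGH : G ∪ H = J1 := by
    rw [hGd]
    exact sdiff_union_of_subset hHJ
  have hdis : Disjoint G H := by
    rw [hGd]
    exact sdiff_disjoint
  have hGc : G.card + (u + r) = J1.card := by
    rw [← hHc, ← hGH, card_union_of_disjoint hdis]
  have hGi : ∀ w : U → F, (∀ k ∈ G, ∑ u, w u * C k u = 0) → w = 0 := fun w hw =>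
    hG0i w trivial fun k hk => hw k (hG0G hk)
  -- the ranks
  have e1 : finrank F (U → F) = u := by rw [finrank_fintype_fun_eq_card, hu]
  have e2 : finrank F ({l : J // l ≠ ks} → F) = Fintype.card J - 1 := by
    rw [finrank_fintype_fun_eq_card, card_ne]
  have e3 : finrank F (U1 → F) = U1.card := by
    rw [finrank_fintype_fun_eq_card, Fintype.card_coe]
  have e4 : finrank F (G → F) = G.card := by
    rw [finrank_fintype_fun_eq_card, Fintype.card_coe]
  have e5 : finrank F (H → F) = u + r := by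
    rw [finrank_fintype_fun_eq_card, Fintype.card_coe, hHc]
  have hU1 : U1.card ≤ u := by
    rw [hu]
    exact card_le_univ _
  have key := jt (s := (2 * M + 2) * u + ((M + 2) * r + 1) - (u + r) - 1) (h := u + r)
    (fun i => mAm (m i) U1 A B) (fun i => mBm (m i) ks U1 B) (fun i => mCm (m i) G C)
    (fun i => mCm (m i) H C) (fun i => mDm (m i) ks G C) (fun i => mDm (m i) ks H C) e5
    (by rw [e1, e2, e3, e4]; omega) (by rw [e1, e3]; exact hU1)
    (fun i => cop_surj (m i) ks U1 A B hB)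
    (fun i x h1 h2 => inj_x (m i) U1 A B C (hm i) G hGi x h1 h2)
    (fun i j hij => by
      refine le_trans ?_ (sep_rank (m i) (m j) ks G C)
      have h1 := hsep i j hij
      have h2 : (J1.filter fun k => ∑ u, (m i u - m j u) * C k u ≠ 0) ⊆
          (G.filter fun k => k ≠ ks ∧ ∑ u, (m i u - m j u) * C k u ≠ 0) ∪ (H ∪ {ks}) := by
        intro k hk
        rw [mem_filter] at hk
        rw [mem_union, mem_filter, mem_union, mem_singleton]
        by_cases hks : k = ks
        · exact Or.inr (Or.inr hks)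
        · by_cases hkH : k ∈ H
          · exact Or.inr (Or.inl hkH)
          · left
            refine ⟨?_, hks, hk.2⟩
            rw [hGd, mem_sdiff]
            exact ⟨hk.1, hkH⟩
      have h3 := (card_le_card h2).trans (card_union_le _ _)
      have h4 := card_union_le H {ks}
      rw [card_singleton, hHc] at h4
      omega)
  rw [e1] at key
  -- the translation
  have h5 : ((univ.filter fun α : prs J1 → ZMod 3 => ∀ i, GdM (m i) U1 J1 A B C (ext α)).card : ℝ) /
      3 ^ (prs J1).card = fr (fun R : (({l : J // l ≠ ks} → F) →ₗ[F] (G → F)) ×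
        (({l : J // l ≠ ks} → F) →ₗ[F] (H → F)) =>
        GJ (fun i => mAm (m i) U1 A B) (fun i => mBm (m i) ks U1 B) (fun i => mCm (m i) G C)
        (fun i => mCm (m i) H C) (fun i => mDm (m i) ks G C) (fun i => mDm (m i) ks H C)
        R.1 R.2) := by
    rw [← fr_equiv ((Equiv.ofBijective _ (mT_bij ks J1)).trans (spl ks hGJ hHJ hGH hdis))]
    unfold fr
    have h6 : Nat.card (prs J1 → F) = 3 ^ (prs J1).card := by
      rw [Nat.card_fun, Nat.card_eq_fintype_card, Nat.card_eq_fintype_card, ZMod.card,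
        Fintype.card_coe]
    rw [h6, Nat.card_eq_fintype_card, Fintype.card_subtype]
    push_cast
    congr 3
    refine Finset.filter_congr fun α _ => ?_
    unfold GJ
    exact forall_congr' fun i => gdM_iff (m i) ks U1 A B C (hm i) hGJ hHJ hGH α
  rw [h5]
  have h6 := pow_diff (pm_nonneg (u + r)) (pm_le_one (u + r)) h3.2.1.le h3.2.2.1.le M
  have h7 : |pm (u + r) - c3| ≤ (1 / 3 : ℝ) ^ r := by
    refine (h3.1 (u + r)).trans ?_
    exact pow_le_pow_of_le_one (by norm_num) (by norm_num) (by omega)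
  have h8 : (3 : ℝ) ^ u / 3 ^ (u + r) = (1 / 3) ^ r := by
    rw [pow_add, one_div_pow, div_mul_eq_div_div, div_self (by positivity)]
  have h9 : (3 : ℝ) ^ (M * (u + (u + r))) /
      3 ^ ((2 * M + 2) * u + ((M + 2) * r + 1) - (u + r) - 1) ≤ (1 / 3) ^ r := by
    rw [div_le_iff₀ (by positivity), one_div_pow, one_div, ← div_eq_inv_mul,
      le_div_iff₀ (by positivity), ← pow_add]
    refine pow_le_pow_right₀ (by norm_num) ?_
    have e6 : (2 * M + 2) * u + ((M + 2) * r + 1) = M * (u + (u + r)) + r + (u + r) + 1 + u := by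
      ring
    omega
  rw [h8] at key
  obtain ⟨q, hq⟩ : ∃ q : ℝ, q = (1 / 3 : ℝ) ^ r := ⟨_, rfl⟩
  rw [← hq] at h7 h9 key hr
  have h10 : (M : ℝ) * |pm (u + r) - c3| ≤ M * q := mul_le_mul_of_nonneg_left h7 (Nat.cast_nonneg _)
  have h11 : ((2 ^ M * M : ℕ) : ℝ) * ((3 : ℝ) ^ (M * (u + (u + r))) /
      3 ^ ((2 * M + 2) * u + ((M + 2) * r + 1) - (u + r) - 1)) ≤ (2 ^ M * M : ℝ) * q := by
    push_cast
    exact mul_le_mul_of_nonneg_left h9 (by positivity)
  have h12 : K * q = M * q + (2 ^ M * M : ℝ) * q + M * q := by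
    rw [hK]
    ring
  have h13 := abs_sub_le (fr (fun R : (({l : J // l ≠ ks} → F) →ₗ[F] (G → F)) ×
        (({l : J // l ≠ ks} → F) →ₗ[F] (H → F)) =>
        GJ (fun i => mAm (m i) U1 A B) (fun i => mBm (m i) ks U1 B) (fun i => mCm (m i) G C)
        (fun i => mCm (m i) H C) (fun i => mDm (m i) ks G C) (fun i => mDm (m i) ks H C)
        R.1 R.2)) (pm (u + r) ^ M) (c3 ^ M)
  linarith

end Pool.Agent.X253.JC
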