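import Pool.Agent.Y710.CX.NS
import Pool.Agent.X253.JC.Stm

/-! # Project JC: the translation between the numbers `D` with exponents and the weighted systems -/

set_option autoImplicit false

open scoped Classical

namespace Pool.Agent.X253.JC

open Finset
open Pool.Agent.Y703.CX
open Pool.Agent.Y703.CT (Cls NoSplit Base)
open Pool.Agent.Y710.CX (lam_one cube_two)

theorem lam_pow (h : LamP) {p : ℕ} (hp : p.Prime) (hp1 : p % 3 = 1) {n : ℕ} (hn : ¬ p ∣ n)
    (k : ℕ) : lam p (n ^ k) = k * lam p n := by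
  induction k with
  | zero =>
    rw [pow_zero, lam_one h hp hp1]
    simp
  | succ k ih =>
    rw [pow_succ, h.mul p _ _ hp hp1 (fun h' => hn (hp.dvd_of_dvd_pow h')) hn, ih]
    push_cast
    ring

theorem not_dvd_prodE {p : ℕ} (hp : p.Prime) (e : ℕ → ℕ) (T : Finset ℕ) (hT : ∀ q ∈ T, q.Prime)
    (hpT : p ∉ T) : ¬ p ∣ ∏ q ∈ T, q ^ e q := by
  intro h
  obtain ⟨q, hq, hpq⟩ := (hp.prime.dvd_finsetProd_iff _).1 h
  have := hp.dvd_of_dvd_pow hpq
  rw [(Nat.prime_dvd_prime_iff_eq hp (hT q hq)).1 this] at hpT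
  exact hpT hq

theorem lam_prodE (h : LamP) {p : ℕ} (hp : p.Prime) (hp1 : p % 3 = 1) (e : ℕ → ℕ) (T : Finset ℕ)
    (hT : ∀ q ∈ T, q.Prime) (hpT : p ∉ T) :
    lam p (∏ q ∈ T, q ^ e q) = ∑ q ∈ T, (e q : ZMod 3) * lam p q := by
  induction T using Finset.induction_on with
  | empty => simpa using lam_one h hp hp1
  | insert a T ha ih =>
    rw [Finset.prod_insert ha, Finset.sum_insert ha]
    have h1 : ∀ q ∈ T, q.Prime := fun q hq => hT q (Finset.mem_insert_of_mem hq)
    have h2 : p ∉ T := fun hq => hpT (Finset.mem_insert_of_mem hq)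
    have h3 : ¬ p ∣ a := by
      intro h4
      have := (Nat.prime_dvd_prime_iff_eq hp (hT a (Finset.mem_insert_self _ _))).1 h4
      exact hpT (this ▸ Finset.mem_insert_self _ _)
    rw [h.mul p _ _ hp hp1 (fun h' => h3 (hp.dvd_of_dvd_pow h')) (not_dvd_prodE hp e T h1 h2),
      ih h1 h2, lam_pow h hp hp1 h3]

/-- the product of the part with label `i` -/
noncomputable def de (S : Finset ℕ) (e : ℕ → ℕ) (c : ℕ → ZMod 3) (i : ZMod 3) : ℕ :=
  ∏ q ∈ S.filter (fun q => c q = i), q ^ e q

theorem prod_de (S : Finset ℕ) (e : ℕ → ℕ) (c : ℕ → ZMod 3) :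
    ∏ i, de S e c i = ∏ q ∈ S, q ^ e q := by
  unfold de
  exact Finset.prod_fiberwise S c fun q => q ^ e q

theorem lam_de (h : LamP) {S : Finset ℕ} (hS : ∀ q ∈ S, q.Prime) (e : ℕ → ℕ) (c : ℕ → ZMod 3)
    {p : ℕ} (hp : p.Prime) (hp1 : p % 3 = 1) :
    ¬ p ∣ de S e c (c p + 1) * de S e c (c p + 2) ^ 2 ∧
    lam p (de S e c (c p + 1) * de S e c (c p + 2) ^ 2) =
      ∑ q ∈ S, (e q : ZMod 3) * (c q - c p) * lam p q := by
  have n1 : c p + 1 ≠ c p := by
    have : ∀ a : ZMod 3, a + 1 ≠ a := by decide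
    exact this _
  have n2 : c p + 2 ≠ c p := by
    have : ∀ a : ZMod 3, a + 2 ≠ a := by decide
    exact this _
  have hS' : ∀ i, ∀ q ∈ S.filter (fun q => c q = i), q.Prime := fun i q hq =>
    hS q (Finset.mem_filter.1 hq).1
  have m1 : p ∉ S.filter (fun q => c q = c p + 1) := fun h => n1 (Finset.mem_filter.1 h).2.symm
  have m2 : p ∉ S.filter (fun q => c q = c p + 2) := fun h => n2 (Finset.mem_filter.1 h).2.symm
  have d1 : ¬ p ∣ de S e c (c p + 1) := not_dvd_prodE hp e _ (hS' _) m1
  have d2 : ¬ p ∣ de S e c (c p + 2) := not_dvd_prodE hp e _ (hS' _) m2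
  have d22 : ¬ p ∣ de S e c (c p + 2) ^ 2 := fun h => d2 (hp.dvd_of_dvd_pow h)
  refine ⟨fun h => (hp.dvd_mul.1 h).elim d1 d22, ?_⟩
  rw [h.mul p _ _ hp hp1 d1 d22, sq, h.mul p _ _ hp hp1 d2 d2]
  unfold de
  rw [lam_prodE h hp hp1 e _ (hS' _) m1, lam_prodE h hp hp1 e _ (hS' _) m2]
  rw [Finset.sum_filter, Finset.sum_filter, ← Finset.sum_add_distrib, ← Finset.sum_add_distrib]
  refine Finset.sum_congr rfl fun q _ => ?_
  have key : ∀ a i l : ZMod 3, (if a = i + 1 then l else 0) +
      ((if a = i + 2 then l else 0) + (if a = i + 2 then l else 0)) = (a - i) * l := by decide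
  rw [key]
  ring

/-- **The translation.** -/
theorem ns_iff (h : LamP) {D : ℕ} (hD0 : D ≠ 0) (hD1 : D ≠ 1) (h3 : ¬ 3 ∣ D) {S : Finset ℕ}
    (hS : ∀ q ∈ S, q.Prime) (hsub : D.primeFactors ⊆ S)
    (hcf : ∀ p : ℕ, p.Prime → ¬ p ^ 3 ∣ D) :
    NoSplit D ↔ GdW (fun q => (D.factorization q : ZMod 3)) S := by
  have hfz : ∀ q, (D.factorization q : ZMod 3) = 0 ↔ D.factorization q = 0 := by
    intro q
    constructor
    · intro h0
      rw [ZMod.natCast_eq_zero_iff] at h0
      by_contra hne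
      have h4 : 3 ≤ D.factorization q := Nat.le_of_dvd (Nat.pos_of_ne_zero hne) h0
      by_cases hq : q.Prime
      · exact hcf q hq ((pow_dvd_pow q h4).trans (Nat.ordProj_dvd D q))
      · exact hne (Nat.factorization_eq_zero_of_not_prime D hq)
    · intro h0
      rw [h0, Nat.cast_zero]
  have hfac : ∀ q, q.Prime → (D.factorization q ≠ 0 ↔ q ∣ D) := by
    intro q hq
    exact ⟨fun h0 => Nat.dvd_of_factorization_pos h0, fun hd =>
      (hq.factorization_pos_of_dvd hD0 hd).ne'⟩
  have hprod : ∏ q ∈ S, q ^ D.factorization q = D := by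
    rw [← Finset.prod_subset hsub fun q _ hq => by
      rw [← Nat.support_factorization, Finsupp.notMem_support_iff] at hq
      rw [hq, pow_zero]]
    exact Nat.prod_factorization_pow_eq_self hD0
  constructor
  · intro hn c hc
    have hmem : ∀ (i : ZMod 3) (p : ℕ), p.Prime → p ∣ de S D.factorization c i →
        p ∈ S ∧ c p = i ∧ D.factorization p ≠ 0 := by
      intro i p hp hd
      unfold de at hd
      obtain ⟨q, hq, hpq⟩ := (hp.prime.dvd_finsetProd_iff _).1 hd
      obtain ⟨hqS, hqi⟩ := Finset.mem_filter.1 hq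
      have h5 : D.factorization q ≠ 0 := by
        intro h0
        rw [h0, pow_zero] at hpq
        exact hp.one_lt.ne' (Nat.dvd_one.1 hpq)
      have h6 := (Nat.prime_dvd_prime_iff_eq hp (hS q hqS)).1 (hp.dvd_of_dvd_pow hpq)
      rw [h6]
      exact ⟨hqS, hqi, h5⟩
    have hA : ∀ i j : ZMod 3, i ≠ j → Nat.Coprime (de S D.factorization c i)
        (de S D.factorization c j) := by
      intro i j hij
      refine Nat.coprime_of_dvd fun p hp h1 h2 => ?_
      exact hij ((hmem _ p hp h1).2.1.symm.trans (hmem _ p hp h2).2.1)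
    have hB : ∀ (i : ZMod 3) (p : ℕ), p.Prime → p ∣ de S D.factorization c i →
        ∃ x : ℤ, (p : ℤ) ∣ (de S D.factorization c (i + 1) : ℤ) *
          (de S D.factorization c (i + 2) : ℤ) ^ 2 - x ^ 3 := by
      intro i p hp hd
      obtain ⟨hpS, hcp, hpe⟩ := hmem i p hp hd
      have hp3 : p % 3 ≠ 0 := by
        intro h0
        have h5 := (Nat.prime_dvd_prime_iff_eq Nat.prime_three hp).1 (Nat.dvd_of_mod_eq_zero h0)
        rw [h5] at h3
        exact h3 ((hfac p hp).1 hpe)
      rcases (by omega : p % 3 = 1 ∨ p % 3 = 2) with h1 | h2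
      · obtain ⟨k1, k2⟩ := lam_de h hS D.factorization c hp h1
        rw [hcp] at k1 k2
        have k3 := hc p hpS h1 (fun h0 => hpe ((hfz p).1 h0))
        rw [hcp] at k3
        rw [k3] at k2
        have := (h.cube p _ hp h1 k1).1 k2
        push_cast at this
        exact this
      · exact cube_two hp h2 _
    obtain ⟨i, hi⟩ := hn (de S D.factorization c) ((prod_de _ _ _).trans hprod) hA hB
    have hall : ∀ p ∈ S, (D.factorization p : ZMod 3) ≠ 0 → c p = i := by
      intro p hp hpe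
      by_contra hne
      have h1 := hi (c p) hne
      have h2 : p ∣ de S D.factorization c (c p) := by
        unfold de
        refine (dvd_pow_self p (fun h0 => hpe ((hfz p).2 h0))).trans
          (Finset.dvd_prod_of_mem (fun q => q ^ D.factorization q)
            (Finset.mem_filter.2 ⟨hp, rfl⟩))
      rw [h1] at h2
      exact (hS p hp).one_lt.ne' (Nat.dvd_one.1 h2)
    intro p hp hpe q hq hqe
    rw [hall p hp hpe, hall q hq hqe]
  · intro hg d hd hcop hcube
    have hex : ∀ p ∈ D.primeFactors, ∃ i : ZMod 3, p ∣ d i := by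
      intro p hp
      have h1 : p ∣ ∏ i, d i := by
        rw [hd]
        exact Nat.dvd_of_mem_primeFactors hp
      obtain ⟨i, -, hi⟩ := ((Nat.prime_of_mem_primeFactors hp).prime.dvd_finsetProd_iff _).1 h1
      exact ⟨i, hi⟩
    have huniq : ∀ p : ℕ, p.Prime → ∀ i j : ZMod 3, p ∣ d i → p ∣ d j → i = j := by
      intro p hp i j h1 h2
      by_contra hne
      have h3 : p ∣ Nat.gcd (d i) (d j) := Nat.dvd_gcd h1 h2
      rw [Nat.Coprime.gcd_eq_one (hcop i j hne)] at h3
      exact hp.one_lt.ne' (Nat.dvd_one.1 h3)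
    obtain ⟨c, hc⟩ : ∃ c : ℕ → ZMod 3, ∀ p ∈ D.primeFactors, p ∣ d (c p) := by
      refine ⟨fun p => if hp : ∃ i : ZMod 3, p ∣ d i then hp.choose else 0, fun p hp => ?_⟩
      have := hex p hp
      simp only [this, dif_pos]
      exact this.choose_spec
    have hdD : ∀ i, d i ∣ D := fun i => by
      rw [← hd]
      exact Finset.dvd_prod_of_mem _ (Finset.mem_univ i)
    have hd0 : ∀ i, d i ≠ 0 := fun i h0 => hD0 (Nat.eq_zero_of_zero_dvd (h0 ▸ hdD i))
    have hfd : ∀ i p, p.Prime → p ∣ d i → (d i).factorization p = D.factorization p := by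
      intro i p hp hpi
      have h1 : D.factorization p = ∑ j, (d j).factorization p := by
        rw [← hd, Nat.factorization_prod fun j _ => hd0 j, Finsupp.finsetSum_apply]
      rw [h1, Finset.sum_eq_single i]
      · intro j _ hj
        refine Nat.factorization_eq_zero_of_not_dvd fun hpj => ?_
        exact hj (huniq p hp _ _ hpj hpi)
      · intro h
        exact absurd (Finset.mem_univ _) h
    have hdd : ∀ i, de S D.factorization c i = d i := by
      intro i
      unfold de
      rw [← Nat.prod_factorization_pow_eq_self (hd0 i)]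
      show _ = ∏ q ∈ (d i).factorization.support, q ^ (d i).factorization q
      rw [Nat.support_factorization]
      have hss : (d i).primeFactors ⊆ S.filter fun q => c q = i := by
        intro q hq
        have hqp := Nat.prime_of_mem_primeFactors hq
        have hqd := Nat.dvd_of_mem_primeFactors hq
        have hqD : q ∈ D.primeFactors := Nat.mem_primeFactors.2 ⟨hqp, hqd.trans (hdD i), hD0⟩
        exact Finset.mem_filter.2 ⟨hsub hqD, huniq q hqp _ _ (hc q hqD) hqd⟩
      rw [← Finset.prod_subset hss]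
      · refine Finset.prod_congr rfl fun q hq => ?_
        rw [hfd i q (Nat.prime_of_mem_primeFactors hq) (Nat.dvd_of_mem_primeFactors hq)]
      · intro q hq hq'
        obtain ⟨hqS, hqi⟩ := Finset.mem_filter.1 hq
        have h5 : D.factorization q = 0 := by
          by_contra hne
          have hqD : q ∣ D := (hfac q (hS q hqS)).1 hne
          have h6 := hc q (Nat.mem_primeFactors.2 ⟨hS q hqS, hqD, hD0⟩)
          rw [hqi] at h6
          exact hq' (Nat.mem_primeFactors.2 ⟨hS q hqS, h6, hd0 i⟩)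
        rw [h5, pow_zero]
    have hsol : SolW (fun q => (D.factorization q : ZMod 3)) S c := by
      intro p hp hp1 hpe
      have hpD : p ∈ D.primeFactors := Nat.mem_primeFactors.2
        ⟨hS p hp, (hfac p (hS p hp)).1 (fun h0 => hpe ((hfz p).2 h0)), hD0⟩
      obtain ⟨k1, k2⟩ := lam_de h hS D.factorization c (hS p hp) hp1
      show ∑ q ∈ S, (D.factorization q : ZMod 3) * (c q - c p) * lam p q = 0
      rw [← k2]
      rw [h.cube p _ (hS p hp) hp1 k1, hdd, hdd]
      have := hcube (c p) p (hS p hp) (hc p hpD)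
      push_cast
      exact this
    have hconst := hg c hsol
    obtain ⟨q, hq, hqD⟩ := Nat.exists_prime_and_dvd hD1
    have hqm : q ∈ D.primeFactors := Nat.mem_primeFactors.2 ⟨hq, hqD, hD0⟩
    refine ⟨c q, fun j hj => ?_⟩
    by_contra hne
    obtain ⟨p, hp, hpd⟩ := Nat.exists_prime_and_dvd hne
    have hpm : p ∈ D.primeFactors := Nat.mem_primeFactors.2 ⟨hp, hpd.trans (hdD j), hD0⟩
    have h1 := huniq p hp _ _ (hc p hpm) hpd
    rw [hconst p (hsub hpm) (fun h0 => ((hfac p hp).2 (hpd.trans (hdD j))) ((hfz p).1 h0))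
      q (hsub hqm) (fun h0 => ((hfac q hq).2 hqD) ((hfz q).1 h0))] at h1
    exact hj h1.symm

theorem gdW_congr {e e' : ℕ → ZMod 3} {S : Finset ℕ} (h : ∀ q ∈ S, e q = e' q) :
    GdW e S ↔ GdW e' S := by
  have key : ∀ {a b : ℕ → ZMod 3}, (∀ q ∈ S, a q = b q) → GdW a S → GdW b S := by
    intro a b hab hg c hc p hp hpe q hq hqe
    refine hg c (fun x hx hx1 hxe => ?_) p hp (by rw [hab p hp]; exact hpe) q hq
      (by rw [hab q hq]; exact hqe)
    rw [← hc x hx hx1 (by rw [← hab x hx]; exact hxe)]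
    exact Finset.sum_congr rfl fun y hy => by rw [hab y hy]
  exact ⟨key h, key fun q hq => (h q hq).symm⟩

end Pool.Agent.X253.JC
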