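import Pool.Agent.Y703.CX.Fin
import Pool.Agent.X253.C3.FamQ2
import Pool.Agent.X253.JC.LA5
import Pool.Agent.X253.JC.BOX
import Pool.Agent.X253.JC.KEY
import Pool.Agent.X253.JC.FEW
import Pool.Agent.X253.JC.Asy
import Pool.Agent.X253.JC.NSW

/-! # Project JC: the joint distribution -/

set_option autoImplicit false

open scoped Classical

namespace Pool.Agent.X253.JC

open Finset Filter
open Pool.Agent.Y703.CX
open Pool.Agent.Y703.CT (Cls NoSplit Base)

theorem t_JDQ_all : S_JDQ :=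
  t_JDQ Pool.Agent.Y333.CX.t_LAM Pool.Agent.Y261.CX.t_BIL1 Pool.Agent.Y779.CX.t_BIL2
    Pool.Agent.Y419.CX.t_EQ (t_JLA Pool.Agent.Y461.CX.t_C3)
    t_JBOX t_JKEY Pool.Agent.Y388.CX.t_CNT
    Pool.Agent.Y488.CX.t_SIE Pool.Agent.Y495.CX.t_HAL Pool.Agent.Y37.CX.t_BAD
    Pool.Agent.Y495.CX.Few.t_FEW t_JFEW Pool.Agent.Y87.CX.t_MER Pool.Agent.Y461.CX.t_CHE
    Pool.Agent.Y461.CX.t_LOW Pool.Agent.Y461.CX.t_C3

/-- the class of a union with `T` -/
theorem cl_union {S T : Finset ℕ} (hT : ∀ t ∈ T, t.Prime ∧ t % 9 = 1) (hd : Disjoint S T) :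
    Cl (S ∪ T) ↔ Cl S := by
  have e1 : ((S ∪ T).filter fun p => p % 3 = 2) = S.filter fun p => p % 3 = 2 := by
    rw [filter_union]
    have : (T.filter fun p => p % 3 = 2) = ∅ := by
      rw [filter_eq_empty_iff]
      intro p hp
      have := (hT p hp).2
      omega
    rw [this, union_empty]
  have e2 : (∏ p ∈ S ∪ T, p) % 9 = (∏ p ∈ S, p) % 9 := by
    rw [prod_union hd, Nat.mul_mod, Finset.prod_nat_mod T 9]
    have e1 : ∏ p ∈ T, p % 9 = 1 := prod_eq_one fun p hp => (hT p hp).2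
    rw [e1, ← Nat.mul_mod, mul_one]
  unfold Cl
  rw [e1, e2]
  refine and_congr_left fun _ => ?_
  constructor
  · exact fun h p hp => h p (mem_union_left _ hp)
  · intro h p hp
    rcases mem_union.1 hp with hp | hp
    · exact h p hp
    · exact ⟨(hT p hp).1, fun h => by have := (hT p hp).2; omega⟩

/-- the numbers of the class that are prime to `T` -/
noncomputable def BB (T : Finset ℕ) (X : ℕ) : Finset ℕ :=
  (Icc 1 X).filter fun D => Squarefree D ∧ Cls D ∧ ∀ t ∈ T, ¬ t ∣ D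

theorem count {T : Finset ℕ} (hT : ∀ t ∈ T, t.Prime ∧ t % 9 = 1) (X : ℕ) (P : ℕ → Prop)
    (Q : Finset ℕ → Prop)
    (hPQ : ∀ D, Squarefree D → Cls D → (∀ t ∈ T, ¬ t ∣ D) → (P D ↔ Q (D.primeFactors ∪ T))) :
    ((BB T X).filter P).card = ((SS (X * ∏ t ∈ T, t)).filter fun S => T ⊆ S ∧ Q S).card := by
  have hP0 : 0 < ∏ t ∈ T, t := prod_pos fun t ht => (hT t ht).1.pos
  have hdis : ∀ D : ℕ, (∀ t ∈ T, ¬ t ∣ D) → Disjoint D.primeFactors T := by
    intro D hD
    rw [disjoint_left]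
    intro p hp hpT
    exact hD p hpT (Nat.dvd_of_mem_primeFactors hp)
  refine Finset.card_bij (fun D _ => D.primeFactors ∪ T) ?_ ?_ ?_
  · intro D hD
    rw [mem_filter, BB, mem_filter, mem_Icc] at hD
    obtain ⟨⟨⟨h0, h1⟩, h2, h3, h4⟩, h5⟩ := hD
    have hcl : Cl (D.primeFactors ∪ T) := (cl_union hT (hdis D h4)).2
      ((Pool.Agent.Y710.CX.cls_iff h2).1 h3)
    have hprod : ∏ p ∈ D.primeFactors ∪ T, p ≤ X * ∏ t ∈ T, t := by
      rw [prod_union (hdis D h4), Nat.prod_primeFactors_of_squarefree h2]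
      exact Nat.mul_le_mul_right _ h1
    rw [mem_filter, SS, mem_filter, mem_powerset]
    refine ⟨⟨?_, hcl, hprod⟩, subset_union_right, (hPQ D h2 h3 h4).1 h5⟩
    intro p hp
    rw [mem_range]
    have e1 : p ∣ ∏ p ∈ D.primeFactors ∪ T, p := dvd_prod_of_mem _ hp
    have e2 : 0 < ∏ p ∈ D.primeFactors ∪ T, p := prod_pos fun p hp => (hcl.1 p hp).1.pos
    have := Nat.le_of_dvd e2 e1
    omega
  · intro D hD E hE h
    rw [mem_filter, BB, mem_filter] at hD hE
    have h1 := hdis D hD.1.2.2.2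
    have h2 := hdis E hE.1.2.2.2
    have h3 : D.primeFactors = E.primeFactors := by
      have h' : D.primeFactors ∪ T = E.primeFactors ∪ T := h
      rw [← union_sdiff_cancel_right h1, ← union_sdiff_cancel_right h2, h']
    rw [← Nat.prod_primeFactors_of_squarefree hD.1.2.1,
      ← Nat.prod_primeFactors_of_squarefree hE.1.2.1, h3]
  · intro S hS
    rw [mem_filter, SS, mem_filter] at hS
    obtain ⟨⟨-, hcl, hle⟩, hTS, hQ⟩ := hS
    have hpr : ∀ p ∈ S \ T, p.Prime := fun p hp => (hcl.1 p (mem_sdiff.1 hp).1).1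
    have hpf : (∏ p ∈ S \ T, p).primeFactors = S \ T := Nat.primeFactors_prod hpr
    have hsq : Squarefree (∏ p ∈ S \ T, p) := by
      refine Finset.squarefree_prod_of_pairwise_isCoprime (fun p hp q hq hpq => ?_)
        fun p hp => (hpr p hp).squarefree
      show IsRelPrime p q
      rw [← Nat.coprime_iff_isRelPrime]
      exact (Nat.coprime_primes (hpr p hp) (hpr q hq)).mpr hpq
    have hU : (S \ T) ∪ T = S := sdiff_union_of_subset hTS
    have hd : Disjoint (S \ T) T := sdiff_disjoint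
    have hcl' : Cl (S \ T) := by
      rw [← cl_union hT hd, hU]
      exact hcl
    have hcls : Cls (∏ p ∈ S \ T, p) := (Pool.Agent.Y710.CX.cls_iff hsq).2 (by rw [hpf]; exact hcl')
    have hnd : ∀ t ∈ T, ¬ t ∣ ∏ p ∈ S \ T, p := by
      intro t ht htd
      have : t ∈ S \ T := by
        rw [← hpf]
        exact Nat.mem_primeFactors.2 ⟨(hT t ht).1, htd, hsq.ne_zero⟩
      exact (mem_sdiff.1 this).2 ht
    refine ⟨∏ p ∈ S \ T, p, ?_, by rw [hpf, hU]⟩
    rw [mem_filter, BB, mem_filter, mem_Icc]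
    refine ⟨⟨⟨Nat.one_le_iff_ne_zero.2 hsq.ne_zero, ?_⟩, hsq, hcls, hnd⟩, ?_⟩
    · have e1 : (∏ p ∈ S \ T, p) * ∏ t ∈ T, t ≤ X * ∏ t ∈ T, t := by
        rw [prod_sdiff hTS]
        exact hle
      exact Nat.le_of_mul_le_mul_right e1 hP0
    · rw [hPQ _ hsq hcls hnd, hpf, hU]
      exact hQ

/-- the cubic twist -/
def tw (T : Finset ℕ) (D : ℕ) (ε : T → Fin 3) : ℕ := D * ∏ t : T, (t : ℕ) ^ (ε t : ℕ)

/-- the exponents on all natural numbers -/
noncomputable def xe (T : Finset ℕ) (ε : T → Fin 3) (q : ℕ) : ℕ :=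
  if h : q ∈ T then (ε ⟨q, h⟩ : ℕ) else 1

lemma tw_eq (T : Finset ℕ) (D : ℕ) (ε : T → Fin 3) : tw T D ε = D * ∏ t ∈ T, t ^ xe T ε t := by
  unfold tw
  rw [← Finset.prod_coe_sort T (fun t => t ^ xe T ε t)]
  congr 1
  refine prod_congr rfl fun t _ => ?_
  unfold xe
  rw [dif_pos t.2]

lemma xe_lt (T : Finset ℕ) (ε : T → Fin 3) (q : ℕ) : xe T ε q < 3 := by
  unfold xe
  split_ifs
  · exact (ε _).2
  · norm_num

theorem tw_cls {T : Finset ℕ} (hT : ∀ t ∈ T, t.Prime ∧ t % 9 = 1) {D : ℕ} (hD : Cls D)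
    (hTD : ∀ t ∈ T, ¬ t ∣ D) (ε : T → Fin 3) : Cls (tw T D ε) := by
  rw [tw_eq]
  exact Pool.Agent.X253.C3.cls_prod hD T (xe T ε) (fun t ht => ⟨(hT t ht).1, (hT t ht).2, hTD t ht⟩)
    fun t _ => xe_lt T ε t

/-- the factorization of the twist -/
theorem tw_fac {T : Finset ℕ} (hT : ∀ t ∈ T, t.Prime ∧ t % 9 = 1) {D : ℕ} (hD : Cls D)
    (hsq : Squarefree D) (hTD : ∀ t ∈ T, ¬ t ∣ D) (ε : T → Fin 3) :
    ∀ q ∈ D.primeFactors ∪ T, (tw T D ε).factorization q = xe T ε q := by
  intro q hq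
  have hP0 : ∏ t ∈ T, t ^ xe T ε t ≠ 0 :=
    prod_ne_zero_iff.2 fun p hp => pow_ne_zero _ (hT p hp).1.ne_zero
  rw [tw_eq, Nat.factorization_mul hD.1.1 hP0, Finsupp.add_apply]
  have h1 : (∏ t ∈ T, t ^ xe T ε t).factorization q = if q ∈ T then xe T ε q else 0 := by
    rw [Nat.factorization_prod fun p hp => pow_ne_zero _ (hT p hp).1.ne_zero,
      Finsupp.finsetSum_apply]
    have e1 : ∀ t ∈ T, (t ^ xe T ε t).factorization q = if t = q then xe T ε q else 0 := by
      intro t ht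
      rw [(hT t ht).1.factorization_pow, Finsupp.single_apply]
      split_ifs with h
      · rw [h]
      · rfl
    rw [sum_congr rfl e1]
    simp
  rw [h1]
  by_cases hqT : q ∈ T
  · rw [if_pos hqT, Nat.factorization_eq_zero_of_not_dvd (hTD q hqT), zero_add]
  · rw [if_neg hqT, add_zero]
    have hqD : q ∈ D.primeFactors := by
      rcases mem_union.1 hq with h | h
      · exact h
      · exact absurd h hqT
    have e1 : xe T ε q = 1 := by
      unfold xe
      rw [dif_neg hqT]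
    rw [e1]
    have h2 := hsq.natFactorization_le_one q
    have h3 := (Nat.prime_of_mem_primeFactors hqD).factorization_pos_of_dvd hD.1.1
      (Nat.dvd_of_mem_primeFactors hqD)
    omega

theorem tw_ns {T : Finset ℕ} (hT : ∀ t ∈ T, t.Prime ∧ t % 9 = 1) {D : ℕ} (hD : Cls D)
    (hsq : Squarefree D) (hTD : ∀ t ∈ T, ¬ t ∣ D) (ε : T → Fin 3) :
    NoSplit (tw T D ε) ↔ GdW (fun q => (xe T ε q : ZMod 3)) (D.primeFactors ∪ T) := by
  have hc := tw_cls hT hD hTD ε
  obtain ⟨⟨h0, h3, hcf⟩, -, -, q, hq, -, hqD, -⟩ := hc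
  have h1 : tw T D ε ≠ 1 := by
    intro h1
    rw [h1] at hqD
    exact hq.one_lt.ne' (Nat.dvd_one.1 hqD)
  have hS : ∀ q ∈ D.primeFactors ∪ T, q.Prime := by
    intro q hq
    rcases mem_union.1 hq with h | h
    · exact Nat.prime_of_mem_primeFactors h
    · exact (hT q h).1
  have hsub : (tw T D ε).primeFactors ⊆ D.primeFactors ∪ T := by
    intro r hr
    have hrp := Nat.prime_of_mem_primeFactors hr
    have hrd := Nat.dvd_of_mem_primeFactors hr
    rw [tw_eq] at hrd
    rcases hrp.dvd_mul.1 hrd with h | h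
    · exact mem_union_left _ (Nat.mem_primeFactors.2 ⟨hrp, h, hD.1.1⟩)
    · obtain ⟨t, ht, htr⟩ := (hrp.prime.dvd_finsetProd_iff _).1 h
      rw [(Nat.prime_dvd_prime_iff_eq hrp (hT t ht).1).1 (hrp.dvd_of_dvd_pow htr)]
      exact mem_union_right _ ht
  rw [ns_iff Pool.Agent.Y333.CX.t_LAM h0 h1 h3 hS hsub hcf]
  exact gdW_congr fun q hq => by rw [tw_fac hT hD hsq hTD ε q hq]

/-- all the twists in `A` are good -/
def GA (T : Finset ℕ) (A : Finset (T → Fin 3)) (D : ℕ) : Prop := ∀ ε ∈ A, NoSplit (tw T D ε)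

/-- exactly the twists in `A` are good -/
def EA (T : Finset ℕ) (A : Finset (T → Fin 3)) (D : ℕ) : Prop := ∀ ε, NoSplit (tw T D ε) ↔ ε ∈ A

/-- **The joint proportion.** -/
theorem joint {T : Finset ℕ} (hT : ∀ t ∈ T, t.Prime ∧ t % 9 = 1) (A : Finset (T → Fin 3)) :
    Tendsto (fun X : ℕ => (((BB T X).filter (GA T A)).card : ℝ) /
      ((BB T X).card : ℝ)) atTop (nhds (c3 ^ A.card)) := by
  obtain ⟨e⟩ : Nonempty (A ≃ Fin A.card) := ⟨Finset.equivFin A⟩
  let m : Fin A.card → ℕ → ZMod 3 := fun i q => (xe T (e.symm i : T → Fin 3) q : ZMod 3)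
  have hm : OkM T m :=
    { pr := fun t ht => ⟨(hT t ht).1, by have := (hT t ht).2; omega⟩
      nine := fun t ht => (hT t ht).2
      one := fun i u hu => by
        show (xe T (e.symm i : T → Fin 3) u : ZMod 3) = 1
        unfold xe
        rw [dif_neg hu]
        exact Nat.cast_one
      ne := fun i j hij => by
        have h1 : (e.symm i : T → Fin 3) ≠ (e.symm j : T → Fin 3) := fun h =>
          hij (e.symm.injective (Subtype.ext h))
        obtain ⟨t, ht⟩ := Function.ne_iff.1 h1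
        refine ⟨t, t.2, fun h => ht ?_⟩
        have h2 : (xe T (e.symm i : T → Fin 3) t : ZMod 3) =
          (xe T (e.symm j : T → Fin 3) t : ZMod 3) := h
        unfold xe at h2
        rw [dif_pos t.2, dif_pos t.2] at h2
        have key : ∀ a b : Fin 3, ((a : ℕ) : ZMod 3) = ((b : ℕ) : ZMod 3) → a = b := by decide
        exact key _ _ h2 }
  have hP0 : 0 < ∏ t ∈ T, t := prod_pos fun t ht => (hT t ht).1.pos
  have hlim := (t_JDQ_all A.card T m hm).comp
    (tendsto_atTop_mono (fun X => Nat.le_mul_of_pos_right X hP0) tendsto_id :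
      Tendsto (fun X : ℕ => X * ∏ t ∈ T, t) atTop atTop)
  refine hlim.congr fun X => ?_
  have e1 := count hT X (GA T A) (GdJ m) (fun D hsq hD hTD => by
    constructor
    · intro h i
      exact (tw_ns hT hD hsq hTD _).1 (h _ (e.symm i).2)
    · intro h ε hε
      have h1 := h (e ⟨ε, hε⟩)
      have h2 : (e.symm (e ⟨ε, hε⟩) : T → Fin 3) = ε := by rw [Equiv.symm_apply_apply]
      have h3 : GdW (fun q => (xe T (e.symm (e ⟨ε, hε⟩) : T → Fin 3) q : ZMod 3))
        (D.primeFactors ∪ T) := h1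
      rw [h2] at h3
      exact (tw_ns hT hD hsq hTD ε).2 h3)
  have e2 := count hT X (fun _ => True) (fun _ => True) (fun _ _ _ _ => Iff.rfl)
  rw [filter_true] at e2
  simp only [and_true] at e2
  simp only [Function.comp]
  rw [e1, e2]

/-- all in `A` -/
def GI {α I : Type} (G : I → α → Prop) (A : Finset I) (x : α) : Prop := ∀ i ∈ A, G i x

/-- all in `A`, none in `N` -/
def GN {α I : Type} (G : I → α → Prop) (A N : Finset I) (x : α) : Prop :=
  (∀ i ∈ A, G i x) ∧ ∀ i ∈ N, ¬ G i x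

/-- inclusion and exclusion -/
theorem incl {α I : Type} (B : ℕ → Finset α) (G : I → α → Prop) (c : ℝ)
    (h : ∀ A : Finset I, Tendsto (fun X => (((B X).filter (GI G A)).card : ℝ) /
      ((B X).card : ℝ)) atTop (nhds (c ^ A.card))) (N : Finset I) :
    ∀ A : Finset I, Disjoint A N → Tendsto (fun X => (((B X).filter (GN G A N)).card : ℝ) /
      ((B X).card : ℝ)) atTop (nhds (c ^ A.card * (1 - c) ^ N.card)) := by
  induction N using Finset.induction_on with
  | empty =>
    intro A _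
    rw [card_empty, pow_zero, mul_one]
    refine (h A).congr fun X => ?_
    congr 3
    refine filter_congr fun x _ => ?_
    unfold GI GN
    exact ⟨fun h => ⟨h, fun i hi => absurd hi (notMem_empty i)⟩, fun h => h.1⟩
  | insert b N hb ih =>
    intro A hA
    rw [disjoint_insert_right] at hA
    have h1 := ih A hA.2
    have h2 := ih (insert b A) (disjoint_insert_left.2 ⟨hb, hA.2⟩)
    rw [card_insert_of_notMem hA.1] at h2
    rw [card_insert_of_notMem hb]
    have h3 := h1.sub h2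
    have e0 : c ^ A.card * (1 - c) ^ N.card - c ^ (A.card + 1) * (1 - c) ^ N.card =
        c ^ A.card * (1 - c) ^ (N.card + 1) := by ring
    rw [e0] at h3
    refine h3.congr fun X => ?_
    rw [← sub_div]
    congr 1
    have e1 : ((B X).filter (GN G A N)).card =
        ((B X).filter (GN G (insert b A) N)).card +
        ((B X).filter (GN G A (insert b N))).card := by
      rw [← card_union_of_disjoint]
      · congr 1
        ext x
        rw [mem_union, mem_filter, mem_filter, mem_filter]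
        unfold GN
        rw [forall_mem_insert, forall_mem_insert]
        constructor
        · rintro ⟨h1, h2, h3⟩
          by_cases hb : G b x
          · exact Or.inl ⟨h1, ⟨hb, h2⟩, h3⟩
          · exact Or.inr ⟨h1, h2, hb, h3⟩
        · rintro (⟨h1, ⟨-, h2⟩, h3⟩ | ⟨h1, h2, -, h3⟩)
          · exact ⟨h1, h2, h3⟩
          · exact ⟨h1, h2, h3⟩
      · rw [disjoint_left]
        intro x hx hx'
        rw [mem_filter] at hx hx'
        unfold GN at hx hx'
        rw [forall_mem_insert] at hx hx'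
        exact hx'.2.2.1 hx.2.1.1
    rw [e1]
    push_cast
    ring

/-- **The joint distribution.** -/
theorem distr {T : Finset ℕ} (hT : ∀ t ∈ T, t.Prime ∧ t % 9 = 1) (A : Finset (T → Fin 3)) :
    Tendsto (fun X : ℕ => (((BB T X).filter (EA T A)).card : ℝ) /
      ((BB T X).card : ℝ)) atTop (nhds (c3 ^ A.card * (1 - c3) ^ (3 ^ T.card - A.card))) := by
  have h := incl (BB T) (fun (ε : T → Fin 3) (D : ℕ) => NoSplit (tw T D ε)) c3 (joint hT)
    (univ \ A) A disjoint_sdiff
  have e1 : (univ \ A).card = 3 ^ T.card - A.card := by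
    rw [card_sdiff_of_subset (subset_univ _), card_univ, Fintype.card_fun, Fintype.card_fin,
      Fintype.card_coe]
  rw [e1] at h
  refine h.congr fun X => ?_
  congr 3
  refine filter_congr fun D _ => ?_
  unfold GN EA
  constructor
  · rintro ⟨h1, h2⟩ ε
    constructor
    · intro h3
      by_contra hc
      exact h2 ε (mem_sdiff.2 ⟨mem_univ _, hc⟩) h3
    · exact h1 ε
  · intro h1
    exact ⟨fun ε hε => (h1 ε).2 hε, fun ε hε h3 => (mem_sdiff.1 hε).2 ((h1 ε).1 h3)⟩

end Pool.Agent.X253.JC
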