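import Pool.Agent.Y759.CX.LA

/-!
# The joint version of project CX: linear algebra, abstract part
-/

set_option autoImplicit false
set_option linter.unusedSectionVars false

open scoped Classical

namespace Pool.Agent.X253.JC

open Function Module
open Pool.Agent.Y759.CX (fr fr_equiv fr_nonneg fr_le_one fr_mono fr_not fr_prod fr_comp fr_exists
  fr_single card_mod pm pm_nonneg pm_le_one fr_inj F)

/-- independent events -/
lemma fr_pi {M : ℕ} {G : Fin M → Type} [∀ i, Finite (G i)] (P : ∀ i, G i → Prop) :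
    fr (fun f : (∀ i, G i) => ∀ i, P i (f i)) = ∏ i, fr (P i) := by
  have h1 : Nat.card {f : (∀ i, G i) // ∀ i, P i (f i)} = ∏ i, Nat.card {g // P i g} := by
    rw [Nat.card_congr (Equiv.subtypePiEquivPi (p := fun {i} g => P i g)), Nat.card_pi]
  unfold fr
  rw [h1, Nat.card_pi]
  push_cast
  rw [Finset.prod_div_distrib]

section lin

variable {X Y V W W2 : Type} [AddCommGroup X] [Module F X] [Finite X]
  [AddCommGroup Y] [Module F Y] [Finite Y] [AddCommGroup V] [Module F V] [Finite V]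
  [AddCommGroup W] [Module F W] [Finite W] [AddCommGroup W2] [Module F W2] [Finite W2]

/-- the last rows, given kernels in general position -/
theorem fr_joint {M h : ℕ} (K : Fin M → Submodule F (X × V)) (T : Fin M → (X × V) →ₗ[F] W2)
    (hK : ∀ i, finrank F (K i) = h) (hW : finrank F W2 = h)
    (hinj : ∀ κ : (∀ i, K i), ∑ i, (κ i : X × V).2 = 0 → κ = 0) :
    fr (fun R : V →ₗ[F] W2 => ∀ i, ∀ z ∈ K i, T i z + R z.2 = 0 → z = 0) = pm h ^ M := by
  let π : (V →ₗ[F] W2) →+ (∀ i, K i →ₗ[F] W2) :=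
    { toFun := fun R i => R ∘ₗ (LinearMap.snd F X V) ∘ₗ (K i).subtype
      map_zero' := by funext i; ext; simp
      map_add' := fun R S => by funext i; ext; simp }
  let S : (∀ i, K i) →ₗ[F] V :=
    { toFun := fun κ => ∑ i, (κ i : X × V).2
      map_add' := fun κ κ' => by simp [Finset.sum_add_distrib]
      map_smul' := fun a κ => by simp [Finset.smul_sum] }
  have hS : Injective S := (injective_iff_map_eq_zero S).2 fun κ hκ => hinj κ hκ
  obtain ⟨s, hs⟩ := S.exists_leftInverse_of_injective (LinearMap.ker_eq_bot.2 hS)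
  have hπ : Surjective π := by
    intro g
    let G : (∀ i, K i) →ₗ[F] W2 :=
      { toFun := fun κ => ∑ i, g i (κ i)
        map_add' := fun κ κ' => by simp [Finset.sum_add_distrib]
        map_smul' := fun a κ => by simp [Finset.smul_sum] }
    refine ⟨G ∘ₗ s, funext fun i => LinearMap.ext fun z => ?_⟩
    show G (s (z : X × V).2) = g i z
    have h1 : S (Pi.single i z) = (z : X × V).2 := by
      show ∑ j, ((Pi.single i z : ∀ i, K i) j : X × V).2 = _
      rw [Finset.sum_eq_single i]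
      · rw [Pi.single_eq_same]
      · intro j _ hj
        rw [Pi.single_eq_of_ne hj]
        rfl
      · intro h
        exact absurd (Finset.mem_univ _) h
    have h2 : s (z : X × V).2 = Pi.single i z := by
      rw [← h1, ← LinearMap.comp_apply, hs, LinearMap.id_apply]
    rw [h2]
    show ∑ j, g j ((Pi.single i z : ∀ i, K i) j) = _
    rw [Finset.sum_eq_single i]
    · rw [Pi.single_eq_same]
    · intro j _ hj
      rw [Pi.single_eq_of_ne hj, map_zero]
    · intro h
      exact absurd (Finset.mem_univ _) h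
  let t : ∀ i, K i →ₗ[F] W2 := fun i => T i ∘ₗ (K i).subtype
  have h1 : (fun R : V →ₗ[F] W2 => ∀ i, ∀ z ∈ K i, T i z + R z.2 = 0 → z = 0) =
      fun R => (fun g : (∀ i, K i →ₗ[F] W2) => ∀ i, Injective (t i + g i)) (π R) := by
    funext R
    apply propext
    refine forall_congr' fun i => ?_
    rw [injective_iff_map_eq_zero]
    constructor
    · intro h z hz
      exact Subtype.ext (h z z.2 hz)
    · intro h z hz h0
      exact congrArg Subtype.val (h ⟨z, hz⟩ h0)
  rw [h1]
  refine (fr_comp π hπ (fun g : (∀ i, K i →ₗ[F] W2) => ∀ i, Injective (t i + g i))).trans ?_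
  rw [fr_pi (fun i (g : K i →ₗ[F] W2) => Injective (t i + g))]
  have h2 : ∀ i, fr (fun g : K i →ₗ[F] W2 => Injective (t i + g)) = pm h := by
    intro i
    rw [← fr_inj (K := K i) (Q := W2) (hK i) hW]
    exact fr_equiv (Equiv.addLeft (t i)) (fun g : K i →ₗ[F] W2 => Injective g)
  rw [Finset.prod_congr rfl fun i _ => h2 i, Finset.prod_const, Finset.card_univ, Fintype.card_fin]

/-- the equations of the first rows -/
noncomputable def LL (A : X →ₗ[F] Y) (B : V →ₗ[F] Y) (C : X →ₗ[F] W) (D R : V →ₗ[F] W) :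
    (X × V) →ₗ[F] (Y × W) := (A.coprod B).prod (C.coprod (R + D))

lemma finrank_dual (V : Type) [AddCommGroup V] [Module F V] [Finite V] :
    finrank F (V →ₗ[F] F) = finrank F V := Subspace.dual_finrank_eq

/-- the first rows are independent with high probability -/
theorem fr_rank (A : X →ₗ[F] Y) (B : V →ₗ[F] Y) (C : X →ₗ[F] W) (D : V →ₗ[F] W)
    (hs : Surjective (A.coprod B)) :
    fr (fun R : V →ₗ[F] W => ¬ Surjective (LL A B C D R)) ≤
      3 ^ (finrank F Y + finrank F W) / 3 ^ finrank F V := by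
  have := Fintype.ofFinite ((Y × W) →ₗ[F] F)
  have hN : (Fintype.card ((Y × W) →ₗ[F] F) : ℝ) = 3 ^ (finrank F Y + finrank F W) := by
    rw [← Nat.card_eq_fintype_card, card_mod, finrank_dual, Module.finrank_prod]
    push_cast
    rfl
  have h1 : fr (fun R : V →ₗ[F] W => ¬ Surjective (LL A B C D R)) ≤
      fr (fun R : V →ₗ[F] W => ∃ f : (Y × W) →ₗ[F] F, f ∘ₗ LinearMap.inr F Y W ≠ 0 ∧
        (f ∘ₗ LinearMap.inr F Y W) ∘ₗ R = -(f ∘ₗ (B.prod D))) := by
    refine fr_mono fun R hR => ?_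
    rw [← LinearMap.range_eq_top] at hR
    obtain ⟨f, hf, hf'⟩ := Submodule.exists_le_ker_of_lt_top _ (lt_top_iff_ne_top.2 hR)
    have h2 : ∀ z, f (LL A B C D R z) = 0 := fun z => LinearMap.mem_ker.1 (hf' ⟨z, rfl⟩)
    have h3 : ∀ y w, f (y, w) = f (y, 0) + f (0, w) := by
      intro y w
      rw [← map_add]
      simp
    refine ⟨f, fun h0 => ?_, ?_⟩
    · apply hf
      have h4 : ∀ w, f (0, w) = 0 := fun w => LinearMap.congr_fun h0 w
      refine LinearMap.ext fun yw => ?_
      obtain ⟨y, w⟩ := yw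
      rw [h3, h4, add_zero]
      obtain ⟨z, rfl⟩ := hs y
      have h5 := h2 z
      have h6 : LL A B C D R z = (A.coprod B z, C.coprod (R + D) z) := rfl
      rw [h6, h3, h4, add_zero] at h5
      exact h5
    · refine LinearMap.ext fun v => ?_
      have h5 := h2 (0, v)
      have h6 : LL A B C D R (0, v) = (B v, R v + D v) := by
        unfold LL
        simp
      rw [h6] at h5
      show f (0, R v) = -(f (B v, D v))
      have h7 : ((B v, R v + D v) : Y × W) = (0, R v) + (B v, D v) := by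
        refine Prod.ext ?_ rfl
        simp
      rw [h7, map_add] at h5
      exact eq_neg_of_add_eq_zero_left h5
  refine h1.trans ?_
  have h2 : ∀ f : (Y × W) →ₗ[F] F, fr (fun R : V →ₗ[F] W => f ∘ₗ LinearMap.inr F Y W ≠ 0 ∧
      (f ∘ₗ LinearMap.inr F Y W) ∘ₗ R = -(f ∘ₗ (B.prod D))) ≤ 1 / 3 ^ finrank F V := by
    intro f
    set ψ := f ∘ₗ LinearMap.inr F Y W with hψ
    by_cases h0 : ψ = 0
    · have : fr (fun R : V →ₗ[F] W => ψ ≠ 0 ∧ ψ ∘ₗ R = -(f ∘ₗ (B.prod D))) = 0 := by
        unfold fr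
        have : IsEmpty {R : V →ₗ[F] W // ψ ≠ 0 ∧ ψ ∘ₗ R = -(f ∘ₗ (B.prod D))} :=
          ⟨fun x => x.2.1 h0⟩
        rw [Nat.card_of_isEmpty, Nat.cast_zero, zero_div]
      rw [this]
      positivity
    · obtain ⟨w, hw⟩ : ∃ w, ψ w = 1 := by
        have h3 : ∃ w, ψ w ≠ 0 := by
          by_contra hc
          push Not at hc
          exact h0 (LinearMap.ext hc)
        obtain ⟨w, hw⟩ := h3
        exact ⟨(ψ w)⁻¹ • w, by rw [map_smul, smul_eq_mul, inv_mul_cancel₀ hw]⟩
      let π : (V →ₗ[F] W) →+ (V →ₗ[F] F) :=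
        { toFun := fun R => ψ ∘ₗ R
          map_zero' := by ext; simp
          map_add' := fun R S => by ext; simp }
      have hπ : Surjective π := by
        intro g
        refine ⟨(LinearMap.toSpanSingleton F W w) ∘ₗ g, ?_⟩
        refine LinearMap.ext fun v => ?_
        show ψ ((LinearMap.toSpanSingleton F W w) (g v)) = g v
        rw [LinearMap.toSpanSingleton_apply, map_smul, hw, smul_eq_mul, mul_one]
      have h4 : fr (fun R : V →ₗ[F] W => ψ ≠ 0 ∧ ψ ∘ₗ R = -(f ∘ₗ (B.prod D))) ≤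
          fr (fun R : V →ₗ[F] W => (fun g => g = -(f ∘ₗ (B.prod D))) (π R)) :=
        fr_mono fun R hR => hR.2
      refine h4.trans (le_of_eq ?_)
      rw [fr_comp π hπ (fun g => g = -(f ∘ₗ (B.prod D))), fr_single, card_mod, finrank_dual]
      push_cast
      rfl
  refine (fr_exists _ h2).trans (le_of_eq ?_)
  rw [hN]
  ring

/-- a dependence of minimal support -/
theorem min_supp {M : ℕ} (K : Fin M → Submodule F (X × V))
    (h1 : ¬ ∀ κ : (∀ i, K i), ∑ i, (κ i : X × V).2 = 0 → κ = 0)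
    (h2 : ∀ i, ∀ z ∈ K i, z.2 = 0 → z = 0) :
    ∃ (I : Finset (Fin M)) (i0 : Fin M), i0 ∉ I ∧ I.Nonempty ∧
      ∃ κ : Fin M → X × V, (∀ i, κ i ∈ K i) ∧ (κ i0).2 = -∑ i ∈ I, (κ i).2 ∧
        LinearIndependent F (fun i : I => (κ i).2) := by
  obtain ⟨Q, hQ⟩ : ∃ Q : ℕ → Prop, ∀ n, Q n ↔ ∃ κ : Fin M → X × V, (∀ i, κ i ∈ K i) ∧
      ∑ i, (κ i).2 = 0 ∧ κ ≠ 0 ∧ (Finset.univ.filter fun i => κ i ≠ 0).card = n :=
    ⟨_, fun _ => Iff.rfl⟩
  have hex : ∃ n, Q n := by
    push Not at h1
    obtain ⟨κ, hκ, hne⟩ := h1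
    refine ⟨_, (hQ _).2 ⟨fun i => κ i, fun i => (κ i).2, hκ, fun h0 => hne ?_, rfl⟩⟩
    funext i
    exact Subtype.ext (congrFun h0 i)
  obtain ⟨κ, hκ, hsum, hne, hcard⟩ := (hQ _).1 (Nat.find_spec hex)
  have hmin : ∀ n, n < Nat.find hex → ¬ Q n := fun n hn => Nat.find_min hex hn
  obtain ⟨i0, hi0⟩ : ∃ i0, κ i0 ≠ 0 := by
    by_contra hc
    push Not at hc
    exact hne (funext hc)
  set P := Finset.univ.filter fun i => κ i ≠ 0 with hP
  have hi0P : i0 ∈ P := Finset.mem_filter.2 ⟨Finset.mem_univ _, hi0⟩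
  have hsum' : (κ i0).2 = -∑ i ∈ P.erase i0, (κ i).2 := by
    have e1 : ∑ i ∈ P, (κ i).2 = 0 := by
      rw [← hsum]
      refine Finset.sum_subset (Finset.subset_univ _) fun i _ hi => ?_
      have : κ i = 0 := by
        by_contra hc
        exact hi (Finset.mem_filter.2 ⟨Finset.mem_univ _, hc⟩)
      rw [this]
      rfl
    rw [← Finset.add_sum_erase P _ hi0P] at e1
    exact eq_neg_of_add_eq_zero_left e1
  refine ⟨P.erase i0, i0, Finset.notMem_erase _ _, ?_, κ, hκ, hsum', ?_⟩
  · rw [Finset.nonempty_iff_ne_empty]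
    intro he
    rw [he, Finset.sum_empty, neg_zero] at hsum'
    exact hi0 (h2 i0 _ (hκ i0) hsum')
  · rw [Fintype.linearIndependent_iff]
    intro a ha
    by_contra hc
    push Not at hc
    obtain ⟨j, hj⟩ := hc
    set κ' : Fin M → X × V := fun i => if hi : i ∈ P.erase i0 then a ⟨i, hi⟩ • κ i else 0 with hκ'
    have e1 : ∀ i : (P.erase i0 : Finset (Fin M)), κ' i = a i • κ i := by
      intro i
      simp only [hκ']
      rw [dif_pos i.2]
    have e2 : ∀ i, i ∉ P.erase i0 → κ' i = 0 := by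
      intro i hi
      simp only [hκ']
      rw [dif_neg hi]
    refine hmin (Finset.univ.filter fun i => κ' i ≠ 0).card ?_ ((hQ _).2 ⟨κ', ?_, ?_, ?_, rfl⟩)
    · rw [← hcard]
      refine lt_of_le_of_lt (Finset.card_le_card (t := P.erase i0) ?_)
        (Finset.card_erase_lt_of_mem hi0P)
      intro i hi
      by_contra hc
      exact (Finset.mem_filter.1 hi).2 (e2 i hc)
    · intro i
      by_cases hi : i ∈ P.erase i0
      · rw [e1 ⟨i, hi⟩]
        exact Submodule.smul_mem _ _ (hκ i)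
      · rw [e2 i hi]
        exact Submodule.zero_mem _
    · rw [← Finset.sum_subset (Finset.subset_univ (P.erase i0)) fun i _ hi => by rw [e2 i hi]; rfl,
        ← Finset.sum_coe_sort (P.erase i0), ← ha]
      exact Finset.sum_congr rfl fun i _ => by rw [e1 i]; rfl
    · intro h0
      have h3 := congrFun h0 j
      rw [e1 j] at h3
      have h4 : κ j ≠ 0 := (Finset.mem_filter.1 (Finset.mem_of_mem_erase j.2)).2
      rcases smul_eq_zero.1 h3 with h5 | h5
      · exact hj h5
      · exact h4 h5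

end lin

end Pool.Agent.X253.JC
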