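import Pool.Agent.X253.JC.LA1

/-!
# The joint version of project CX: linear algebra, abstract part, the first moment
-/

set_option autoImplicit false
set_option linter.unusedSectionVars false

open scoped Classical

namespace Pool.Agent.X253.JC

open Function Module
open Pool.Agent.Y759.CX (fr fr_equiv fr_nonneg fr_le_one fr_mono fr_not fr_prod fr_comp fr_exists
  fr_single card_mod pm pm_nonneg pm_le_one fr_inj F)

section lin

variable {X Y V W W2 : Type} [AddCommGroup X] [Module F X] [Finite X]
  [AddCommGroup Y] [Module F Y] [Finite Y] [AddCommGroup V] [Module F V] [Finite V]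
  [AddCommGroup W] [Module F W] [Finite W] [AddCommGroup W2] [Module F W2] [Finite W2]

/-- the number of elements with a given image -/
lemma card_fib (Λ : V →ₗ[F] W) (w : W) :
    Nat.card {v // Λ v = w} ≤ Nat.card (LinearMap.ker Λ) := by
  by_cases h : ∃ v, Λ v = w
  · obtain ⟨v₀, hv₀⟩ := h
    refine Nat.card_le_card_of_injective (fun v : {v // Λ v = w} =>
      (⟨v.1 - v₀, by rw [LinearMap.mem_ker, map_sub, v.2, hv₀, sub_self]⟩ : LinearMap.ker Λ)) ?_
    intro a b hab
    have := congrArg (fun z : LinearMap.ker Λ => (z : V)) hab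
    exact Subtype.ext (sub_left_injective this)
  · have : IsEmpty {v // Λ v = w} := ⟨fun v => h ⟨v.1, v.2⟩⟩
    rw [Nat.card_of_isEmpty]
    exact Nat.zero_le _

/-- the size of the kernel -/
lemma card_ker (Λ : V →ₗ[F] W) {s : ℕ} (hs : s ≤ finrank F (LinearMap.range Λ)) :
    (Nat.card (LinearMap.ker Λ) : ℝ) ≤ 3 ^ finrank F V / 3 ^ s := by
  rw [le_div_iff₀ (by positivity), card_mod]
  push_cast
  rw [← pow_add]
  refine pow_le_pow_right₀ (by norm_num) ?_
  have := LinearMap.finrank_range_add_finrank_ker Λ
  omega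

/-- the first moment for given masks -/
theorem fr_moment {M s h : ℕ} (C : Fin M → X →ₗ[F] W) (D : Fin M → V →ₗ[F] W)
    (I : Finset (Fin M)) (i0 : Fin M) (hi0 : i0 ∉ I) (hI : I.Nonempty)
    (hsep : ∀ i j, i ≠ j → s ≤ finrank F (LinearMap.range (D i - D j)))
    (hVW : finrank F V ≤ finrank F W + h) :
    fr (fun R : V →ₗ[F] W => ∃ κ : Fin M → X × V,
      (∀ i, C i (κ i).1 + (R + D i) (κ i).2 = 0) ∧ (κ i0).2 = -∑ i ∈ I, (κ i).2 ∧
        LinearIndependent F (fun i : I => (κ i).2)) ≤
      3 ^ (M * (finrank F X + h)) / 3 ^ s := by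
  obtain ⟨j0, hj0⟩ := hI
  let Λ : (I → V) →ₗ[F] W :=
    { toFun := fun v => ∑ i : I, (D i - D i0) (v i)
      map_add' := fun v v' => by simp only [Pi.add_apply, map_add, Finset.sum_add_distrib]
      map_smul' := fun a v => by simp only [Pi.smul_apply, map_smul, Finset.smul_sum,
        RingHom.id_apply] }
  have hΛ : ∀ v, Λ v = ∑ i : I, (D i - D i0) (v i) := fun _ => rfl
  have hrk : s ≤ finrank F (LinearMap.range Λ) := by
    refine (hsep j0 i0 (fun h => hi0 (h ▸ hj0))).trans (Submodule.finrank_mono ?_)
    rintro _ ⟨v, rfl⟩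
    refine ⟨Pi.single ⟨j0, hj0⟩ v, ?_⟩
    rw [hΛ, Finset.sum_eq_single (⟨j0, hj0⟩ : I)]
    · rw [Pi.single_eq_same]
    · intro j _ hj
      rw [Pi.single_eq_of_ne hj, map_zero]
    · intro h
      exact absurd (Finset.mem_univ _) h
  -- the index set
  let ι : Type := {p : ((I → X) × X) × (I → V) // Λ p.2 = -(C i0 p.1.2 + ∑ i : I, C i (p.1.1 i)) ∧
    LinearIndependent F p.2}
  have : Finite ι := Subtype.finite
  have := Fintype.ofFinite ι
  have := Fintype.ofFinite X
  have hcard : (Fintype.card ι : ℝ) ≤ 3 ^ (finrank F X * (I.card + 1)) *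
      (3 ^ (I.card * finrank F V) / 3 ^ s) := by
    have h1 : Nat.card ι ≤ Nat.card ((I → X) × X) * Nat.card (LinearMap.ker Λ) := by
      have e1 : Nat.card ι ≤ Nat.card (Σ q : (I → X) × X,
          {v : I → V // Λ v = -(C i0 q.2 + ∑ i : I, C i (q.1 i))}) :=
        Nat.card_le_card_of_injective (fun p : ι => ⟨p.1.1, p.1.2, p.2.1⟩) (by
          rintro ⟨⟨q, v⟩, hp⟩ ⟨⟨q', v'⟩, hp'⟩ h
          simp only [Sigma.mk.injEq] at h
          obtain ⟨rfl, h2⟩ := h
          have h3 := eq_of_heq h2
          have h4 : v = v' := congrArg Subtype.val h3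
          subst h4
          rfl)
      refine e1.trans ?_
      rw [Nat.card_sigma]
      refine (Finset.sum_le_sum fun q _ => card_fib Λ _).trans (le_of_eq ?_)
      rw [Finset.sum_const, Finset.card_univ, smul_eq_mul, ← Nat.card_eq_fintype_card]
    have h2 : Nat.card ((I → X) × X) = 3 ^ (finrank F X * (I.card + 1)) := by
      rw [Nat.card_prod, Nat.card_fun, card_mod X, Nat.card_eq_fintype_card, Fintype.card_coe,
        ← pow_mul, ← pow_add]
      congr 1
    have h3 := card_ker Λ hrk
    rw [Module.finrank_pi_fintype, Finset.sum_const, Finset.card_univ, Fintype.card_coe,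
      smul_eq_mul] at h3
    rw [h2] at h1
    rw [← Nat.card_eq_fintype_card]
    calc (Nat.card ι : ℝ) ≤ ((3 ^ (finrank F X * (I.card + 1)) *
          Nat.card (LinearMap.ker Λ) : ℕ) : ℝ) := by exact_mod_cast h1
      _ = 3 ^ (finrank F X * (I.card + 1)) * (Nat.card (LinearMap.ker Λ) : ℝ) := by push_cast; rfl
      _ ≤ _ := mul_le_mul_of_nonneg_left h3 (by positivity)
  have h1 : fr (fun R : V →ₗ[F] W => ∃ κ : Fin M → X × V,
      (∀ i, C i (κ i).1 + (R + D i) (κ i).2 = 0) ∧ (κ i0).2 = -∑ i ∈ I, (κ i).2 ∧
        LinearIndependent F (fun i : I => (κ i).2)) ≤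
      fr (fun R : V →ₗ[F] W => ∃ p : ι, ∀ i : I, R (p.1.2 i) = -(C i (p.1.1.1 i) +
        D i (p.1.2 i))) := by
    refine fr_mono fun R hR => ?_
    obtain ⟨κ, hκ, hsum, hlin⟩ := hR
    have e0 : ∀ i, C i (κ i).1 + (R (κ i).2 + D i (κ i).2) = 0 := fun i => hκ i
    refine ⟨⟨((fun i => (κ i).1, (κ i0).1), fun i => (κ i).2), ?_, hlin⟩, ?_⟩
    · rw [hΛ]
      simp only [LinearMap.sub_apply, Finset.sum_sub_distrib]
      have e1 : ∑ i : I, D i (κ i).2 = -∑ i : I, C i (κ i).1 - R (∑ i : I, (κ i).2) := by
        rw [map_sum, ← Finset.sum_neg_distrib, ← Finset.sum_sub_distrib]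
        refine Finset.sum_congr rfl fun i _ => ?_
        have := e0 i
        have h5 : D i (κ i).2 = -(C i (κ i).1 + R (κ i).2) := by
          rw [← add_assoc] at this
          exact eq_neg_of_add_eq_zero_right this
        rw [h5]
        abel
      have e2 : ∑ i : I, (κ i).2 = -(κ i0).2 := by
        rw [hsum, neg_neg, Finset.sum_coe_sort I (fun i => (κ i).2)]
      have e3 : ∑ i : I, D i0 (κ i).2 = -D i0 (κ i0).2 := by
        rw [← map_sum, e2, map_neg]
      have e4 := e0 i0
      rw [e1, e3, e2, map_neg]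
      have h5 : D i0 (κ i0).2 = -(C i0 (κ i0).1 + R (κ i0).2) := by
        rw [← add_assoc] at e4
        exact eq_neg_of_add_eq_zero_right e4
      rw [h5]
      abel
    · intro i
      have := e0 i
      simp only
      have h5 : C i (κ i).1 + (R (κ i).2 + D i (κ i).2) =
        R (κ i).2 + (C i (κ i).1 + D i (κ i).2) := by abel
      rw [h5] at this
      exact eq_neg_of_add_eq_zero_left this
  refine h1.trans ?_
  have h2 : ∀ p : ι, fr (fun R : V →ₗ[F] W => ∀ i : I, R (p.1.2 i) = -(C i (p.1.1.1 i) +
        D i (p.1.2 i))) ≤ 1 / 3 ^ (I.card * finrank F W) := by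
    intro p
    have hlin := p.2.2
    let S : (I → F) →ₗ[F] V := Fintype.linearCombination F p.1.2
    have hS : Injective S := by
      rw [linearIndependent_iff_injective_fintypeLinearCombination] at hlin
      exact hlin
    have hSi : ∀ i : I, S (Pi.single i 1) = p.1.2 i := by
      intro i
      show Fintype.linearCombination F p.1.2 (Pi.single i 1) = _
      rw [Fintype.linearCombination_apply_single, one_smul]
    obtain ⟨sv, hsv⟩ := S.exists_leftInverse_of_injective (LinearMap.ker_eq_bot.2 hS)
    let π : (V →ₗ[F] W) →+ (I → W) :=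
      { toFun := fun R i => R (p.1.2 i)
        map_zero' := rfl
        map_add' := fun _ _ => rfl }
    have hπ : Surjective π := by
      intro g
      refine ⟨(Fintype.linearCombination F g) ∘ₗ sv, ?_⟩
      funext i
      show Fintype.linearCombination F g (sv (p.1.2 i)) = g i
      have e1 : sv (p.1.2 i) = Pi.single i 1 := by
        rw [← hSi i, ← LinearMap.comp_apply, hsv, LinearMap.id_apply]
      rw [e1, Fintype.linearCombination_apply_single, one_smul]
    have h4 : fr (fun R : V →ₗ[F] W => ∀ i : I, R (p.1.2 i) = -(C i (p.1.1.1 i) +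
        D i (p.1.2 i))) = fr (fun R : V →ₗ[F] W =>
          (fun g : I → W => g = fun i : I => -(C i (p.1.1.1 i) + D i (p.1.2 i))) (π R)) := by
      congr 1
      funext R
      exact propext funext_iff.symm
    rw [h4, fr_comp π hπ (fun g : I → W => g = fun i : I => -(C i (p.1.1.1 i) + D i (p.1.2 i))),
      fr_single, Nat.card_fun, card_mod W, Nat.card_eq_fintype_card, Fintype.card_coe, ← pow_mul,
      mul_comm (finrank F W)]
    push_cast
    exact le_rfl
  refine (fr_exists _ h2).trans ?_
  have hIM : I.card + 1 ≤ M := by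
    have h3 : (insert i0 I).card ≤ Fintype.card (Fin M) := Finset.card_le_univ _
    rw [Finset.card_insert_of_notMem hi0, Fintype.card_fin] at h3
    exact h3
  calc (Fintype.card ι : ℝ) * (1 / 3 ^ (I.card * finrank F W)) ≤
      (3 ^ (finrank F X * (I.card + 1)) * (3 ^ (I.card * finrank F V) / 3 ^ s)) *
        (1 / 3 ^ (I.card * finrank F W)) := mul_le_mul_of_nonneg_right hcard (by positivity)
    _ = 3 ^ (finrank F X * (I.card + 1) + I.card * finrank F V) /
        (3 ^ s * 3 ^ (I.card * finrank F W)) := by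
        rw [pow_add]
        field_simp
    _ ≤ 3 ^ (M * (finrank F X + h)) / 3 ^ s := by
        rw [div_le_div_iff₀ (by positivity) (by positivity), ← pow_add, ← pow_add, ← pow_add]
        refine pow_le_pow_right₀ (by norm_num) ?_
        have e1 : finrank F X * (I.card + 1) ≤ M * finrank F X := by
          rw [mul_comm]
          exact Nat.mul_le_mul_right _ hIM
        have e2 : I.card * finrank F V ≤ I.card * finrank F W + M * h := by
          calc I.card * finrank F V ≤ I.card * (finrank F W + h) := Nat.mul_le_mul_left _ hVW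
            _ = I.card * finrank F W + I.card * h := by ring
            _ ≤ _ := by
                have : I.card * h ≤ M * h := Nat.mul_le_mul_right _ (by omega)
                omega
        have e3 : M * (finrank F X + h) = M * finrank F X + M * h := by ring
        omega

end lin

end Pool.Agent.X253.JC
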