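import Pool.Agent.X253.JC.LA2

/-!
# The joint version of project CX: linear algebra, abstract part, the theorem
-/

set_option autoImplicit false
set_option linter.unusedSectionVars false

open scoped Classical

namespace Pool.Agent.X253.JC

open Function Module
open Pool.Agent.Y759.CX (fr fr_equiv fr_nonneg fr_le_one fr_mono fr_not fr_prod fr_comp fr_exists
  fr_single card_mod pm pm_nonneg pm_le_one fr_inj F)

lemma fr_or {G : Type} [Finite G] (P Q : G → Prop) : fr (fun g => P g ∨ Q g) ≤ fr P + fr Q := by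
  have := Fintype.ofFinite G
  unfold fr
  rw [← add_div]
  refine div_le_div_of_nonneg_right ?_ (by positivity)
  simp only [Nat.card_eq_fintype_card, Fintype.card_subtype]
  rw [Finset.filter_or]
  exact_mod_cast Finset.card_union_le _ _

section lin

variable {X Y V W W2 : Type} [AddCommGroup X] [Module F X] [Finite X]
  [AddCommGroup Y] [Module F Y] [Finite Y] [AddCommGroup V] [Module F V] [Finite V]
  [AddCommGroup W] [Module F W] [Finite W] [AddCommGroup W2] [Module F W2] [Finite W2]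

/-- all the systems have only the zero solution -/
def GJ {M : ℕ} (A : Fin M → X →ₗ[F] Y) (B : Fin M → V →ₗ[F] Y) (C : Fin M → X →ₗ[F] W)
    (C' : Fin M → X →ₗ[F] W2) (D : Fin M → V →ₗ[F] W) (D' : Fin M → V →ₗ[F] W2)
    (R : V →ₗ[F] W) (R' : V →ₗ[F] W2) : Prop :=
  ∀ i, ∀ z : X × V, LL (A i) (B i) (C i) (D i) R z = 0 → C' i z.1 + (R' + D' i) z.2 = 0 → z = 0

theorem jt {M s h : ℕ} (A : Fin M → X →ₗ[F] Y) (B : Fin M → V →ₗ[F] Y) (C : Fin M → X →ₗ[F] W)
    (C' : Fin M → X →ₗ[F] W2) (D : Fin M → V →ₗ[F] W) (D' : Fin M → V →ₗ[F] W2)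
    (hW2 : finrank F W2 = h)
    (hn : finrank F X + finrank F V = finrank F Y + finrank F W + h)
    (hY : finrank F Y ≤ finrank F X)
    (hs : ∀ i, Surjective ((A i).coprod (B i)))
    (hi : ∀ i x, A i x = 0 → C i x = 0 → x = 0)
    (hsep : ∀ i j, i ≠ j → s ≤ finrank F (LinearMap.range (D i - D j))) :
    |fr (fun R : (V →ₗ[F] W) × (V →ₗ[F] W2) => GJ A B C C' D D' R.1 R.2) - pm h ^ M| ≤
      M * (3 ^ finrank F X / 3 ^ h) +
        (2 ^ M * M : ℕ) * (3 ^ (M * (finrank F X + h)) / 3 ^ s) := by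
  have hVW : finrank F V ≤ finrank F W + h := by omega
  have := Fintype.ofFinite (V →ₗ[F] W)
  -- the good first rows
  obtain ⟨Bd, hBd⟩ : ∃ Bd : (V →ₗ[F] W) → Finset (Fin M) × Fin M → Prop, ∀ R q, Bd R q ↔
      q.2 ∉ q.1 ∧ q.1.Nonempty ∧ ∃ κ : Fin M → X × V,
      (∀ i, C i (κ i).1 + (R + D i) (κ i).2 = 0) ∧ (κ q.2).2 = -∑ i ∈ q.1, (κ i).2 ∧
        LinearIndependent F (fun i : q.1 => (κ i).2) := ⟨_, fun _ _ => Iff.rfl⟩
  obtain ⟨E, hE⟩ : ∃ E : (V →ₗ[F] W) → Prop, ∀ R, E R ↔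
      ((∀ i, Surjective (LL (A i) (B i) (C i) (D i) R)) ∧ ∀ q, ¬ Bd R q) := ⟨_, fun _ => Iff.rfl⟩
  have h1 : fr (fun R => ¬ E R) ≤ M * (3 ^ finrank F X / 3 ^ h) +
        (2 ^ M * M : ℕ) * (3 ^ (M * (finrank F X + h)) / 3 ^ s) := by
    have e1 : fr (fun R => ¬ E R) ≤
        fr (fun R => (∃ i, ¬ Surjective (LL (A i) (B i) (C i) (D i) R)) ∨ ∃ q, Bd R q) := by
      refine fr_mono fun R hR => ?_
      rw [hE, not_and_or] at hR
      push Not at hR
      exact hR
    refine e1.trans ((fr_or _ _).trans (add_le_add ?_ ?_))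
    · have e2 : ∀ i, fr (fun R => ¬ Surjective (LL (A i) (B i) (C i) (D i) R)) ≤
          3 ^ finrank F X / 3 ^ h := by
        intro i
        refine (fr_rank (A i) (B i) (C i) (D i) (hs i)).trans (le_of_eq ?_)
        rw [div_eq_div_iff (by positivity) (by positivity), ← pow_add, ← pow_add]
        congr 1
        omega
      refine (fr_exists (fun i R => ¬ Surjective (LL (A i) (B i) (C i) (D i) R)) e2).trans
        (le_of_eq ?_)
      rw [Fintype.card_fin]
    · have e2 : ∀ q : Finset (Fin M) × Fin M, fr (fun R => Bd R q) ≤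
          3 ^ (M * (finrank F X + h)) / 3 ^ s := by
        intro q
        by_cases hq : q.2 ∉ q.1 ∧ q.1.Nonempty
        · refine le_trans (fr_mono fun R hR => ?_) (fr_moment C D q.1 q.2 hq.1 hq.2 hsep hVW)
          exact ((hBd R q).1 hR).2.2
        · have : IsEmpty {R : V →ₗ[F] W // Bd R q} := ⟨fun x => hq
            ⟨((hBd x.1 q).1 x.2).1, ((hBd x.1 q).1 x.2).2.1⟩⟩
          unfold fr
          rw [Nat.card_of_isEmpty, Nat.cast_zero, zero_div]
          positivity
      refine (fr_exists (fun q R => Bd R q) e2).trans (le_of_eq ?_)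
      rw [Fintype.card_prod, Fintype.card_finset, Fintype.card_fin]
  -- the last rows
  have h2 : ∀ R, E R → fr (fun R' : V →ₗ[F] W2 => GJ A B C C' D D' R R') = pm h ^ M := by
    intro R hR
    rw [hE] at hR
    obtain ⟨hR1, hR2⟩ := hR
    let K : Fin M → Submodule F (X × V) := fun i => LinearMap.ker (LL (A i) (B i) (C i) (D i) R)
    have hKm : ∀ i, ∀ z ∈ K i, A i z.1 + B i z.2 = 0 ∧ C i z.1 + (R + D i) z.2 = 0 := by
      intro i z hz
      have h3 : LL (A i) (B i) (C i) (D i) R z = 0 := LinearMap.mem_ker.1 hz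
      exact ⟨congrArg Prod.fst h3, congrArg Prod.snd h3⟩
    have hK : ∀ i, finrank F (K i) = h := by
      intro i
      have h3 := LinearMap.finrank_range_add_finrank_ker (LL (A i) (B i) (C i) (D i) R)
      rw [LinearMap.range_eq_top.2 (hR1 i), finrank_top, Module.finrank_prod,
        Module.finrank_prod] at h3
      show finrank F (LinearMap.ker (LL (A i) (B i) (C i) (D i) R)) = h
      omega
    have hinj : ∀ κ : (∀ i, K i), ∑ i, (κ i : X × V).2 = 0 → κ = 0 := by
      by_contra hc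
      obtain ⟨I, i0, hi0, hI, κ, hκ, hκ2, hκ3⟩ := min_supp K hc (by
        intro i z hz h0
        obtain ⟨h3, h4⟩ := hKm i z hz
        rw [h0, map_zero, add_zero] at h3 h4
        exact Prod.ext (hi i _ h3 h4) h0)
      exact hR2 (I, i0) ((hBd _ _).2 ⟨hi0, hI, κ, fun i => (hKm i _ (hκ i)).2, hκ2, hκ3⟩)
    rw [← fr_joint K (fun i => (C' i).coprod (D' i)) hK hW2 hinj]
    congr 1
    funext R'
    apply propext
    unfold GJ
    refine forall_congr' fun i => forall_congr' fun z => ?_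
    rw [show z ∈ K i ↔ LL (A i) (B i) (C i) (D i) R z = 0 from LinearMap.mem_ker]
    have h3 : C' i z.1 + (R' + D' i) z.2 = (C' i).coprod (D' i) z + R' z.2 := by
      rw [LinearMap.coprod_apply, LinearMap.add_apply]
      abel
    rw [h3]
  -- the average
  rw [fr_prod (fun (R : V →ₗ[F] W) (R' : V →ₗ[F] W2) => GJ A B C C' D D' R R')]
  have hN : (0 : ℝ) < (Nat.card (V →ₗ[F] W) : ℝ) := by exact_mod_cast Nat.card_pos
  refine le_trans ?_ h1
  have hp0 : 0 ≤ pm h ^ M := pow_nonneg (pm_nonneg h) M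
  have hp1 : pm h ^ M ≤ 1 := pow_le_one₀ (pm_nonneg h) (pm_le_one h)
  have e1 : (∑ R, fr (fun R' : V →ₗ[F] W2 => GJ A B C C' D D' R R')) /
      (Nat.card (V →ₗ[F] W) : ℝ) - pm h ^ M =
      (∑ R, (fr (fun R' : V →ₗ[F] W2 => GJ A B C C' D D' R R') - pm h ^ M)) /
        (Nat.card (V →ₗ[F] W) : ℝ) := by
    rw [Finset.sum_sub_distrib, Finset.sum_const, Finset.card_univ, nsmul_eq_mul,
      ← Nat.card_eq_fintype_card]
    field_simp
  rw [e1, abs_div, abs_of_pos hN]
  have e2 : fr (fun R => ¬ E R) = ((Finset.univ.filter fun R => ¬ E R).card : ℝ) /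
      (Nat.card (V →ₗ[F] W) : ℝ) := by
    unfold fr
    rw [Nat.card_eq_fintype_card (α := {R // ¬ E R}), Fintype.card_subtype]
  rw [e2]
  refine div_le_div_of_nonneg_right ?_ hN.le
  refine (Finset.abs_sum_le_sum_abs _ _).trans ?_
  have e3 : ((Finset.univ.filter fun R => ¬ E R).card : ℝ) =
      ∑ R, if ¬ E R then (1 : ℝ) else 0 := by
    rw [Finset.card_filter]
    push_cast
    rfl
  rw [e3]
  refine Finset.sum_le_sum fun R _ => ?_
  by_cases hR : E R
  · rw [if_neg (not_not.2 hR), h2 R hR, sub_self, abs_zero]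
  · rw [if_pos hR]
    have h5 := fr_nonneg (fun R' : V →ₗ[F] W2 => GJ A B C C' D D' R R')
    have h6 := fr_le_one (fun R' : V →ₗ[F] W2 => GJ A B C C' D D' R R')
    rw [abs_le]
    constructor <;> linarith

end lin

end Pool.Agent.X253.JC
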