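import Pool.Agent.X253.JC.LA3
import Pool.Agent.X253.JC.Stm

/-!
# Project JC: linear algebra (S_JLA)
-/

set_option autoImplicit false
set_option linter.unusedSectionVars false

open scoped Classical

namespace Pool.Agent.X253.JC

open Function Module Finset
open Pool.Agent.Y703.CX
open Pool.Agent.Y759.CX (fr fr_equiv fr_nonneg fr_le_one fr_mono fr_not fr_prod fr_comp fr_exists
  fr_single card_mod pm pm_nonneg pm_le_one fr_inj F dt dt_ks dt_of mB mB_surj mT mT_apply mT_bij
  card_ne)

variable {U J : Type} [Fintype U] [Fintype J]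

/-- the block `A` -/
noncomputable def mAm (m : U → F) (U1 : Finset U) (A : U → U → F) (B : U → J → F) :
    (U → F) →ₗ[F] (U1 → F) where
  toFun c u := if m u = 0 then c u else ∑ v, m v * (c v - c u) * A u v - ∑ l, c u * B u l
  map_add' c e := by
    funext u
    simp only [Pi.add_apply]
    split_ifs
    · rfl
    · have h1 : ∀ v, m v * (c v + e v - (c u + e u)) * A u v =
          m v * (c v - c u) * A u v + m v * (e v - e u) * A u v := fun v => by ring
      simp only [h1, add_mul, sum_add_distrib]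
      ring
  map_smul' a c := by
    funext u
    simp only [Pi.smul_apply, smul_eq_mul, RingHom.id_apply]
    split_ifs
    · rfl
    · rw [mul_sub, mul_sum, mul_sum]
      congr 1
      · exact sum_congr rfl fun v _ => by ring
      · exact sum_congr rfl fun v _ => by ring

/-- the block `B` -/
noncomputable def mBm (m : U → F) (ks : J) (U1 : Finset U) (B : U → J → F) :
    ({l : J // l ≠ ks} → F) →ₗ[F] (U1 → F) where
  toFun d u := if m u = 0 then 0 else ∑ l, dt ks d l * B u l
  map_add' c e := by
    funext u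
    simp only [Pi.add_apply]
    split_ifs
    · rw [add_zero]
    · simp only [map_add, Pi.add_apply, add_mul, sum_add_distrib]
  map_smul' a c := by
    funext u
    simp only [Pi.smul_apply, smul_eq_mul, RingHom.id_apply, map_smul]
    split_ifs
    · rw [mul_zero]
    · rw [mul_sum]
      exact sum_congr rfl fun v _ => by ring

/-- the block `C` -/
noncomputable def mCm (m : U → F) (G : Finset J) (C : J → U → F) : (U → F) →ₗ[F] (G → F) where
  toFun c k := ∑ u, m u * c u * C k u
  map_add' c e := by
    funext u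
    simp only [Pi.add_apply, mul_add, add_mul, sum_add_distrib]
  map_smul' a c := by
    funext u
    simp only [Pi.smul_apply, smul_eq_mul, RingHom.id_apply]
    rw [mul_sum]
    exact sum_congr rfl fun v _ => by ring

/-- the constant part of the block `R` -/
noncomputable def mDm (m : U → F) (ks : J) (G : Finset J) (C : J → U → F) :
    ({l : J // l ≠ ks} → F) →ₗ[F] (G → F) where
  toFun d k := -(dt ks d k * ∑ u, m u * C k u)
  map_add' c e := by
    funext u
    simp only [Pi.add_apply, map_add, add_mul, neg_add]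
  map_smul' a c := by
    funext u
    simp only [Pi.smul_apply, smul_eq_mul, RingHom.id_apply, map_smul]
    ring

/-- the restriction to a part of the rows -/
noncomputable def rG {J1 : Finset J} (ks : J) (G : Finset J) (hG : G ⊆ J1)
    (R : ({l : J // l ≠ ks} → F) →ₗ[F] (J1 → F)) : ({l : J // l ≠ ks} → F) →ₗ[F] (G → F) :=
  (LinearMap.funLeft F F (fun k : G => (⟨k, hG k.2⟩ : J1))) ∘ₗ R

lemma rG_apply {J1 : Finset J} (ks : J) (G : Finset J) (hG : G ⊆ J1)
    (R : ({l : J // l ≠ ks} → F) →ₗ[F] (J1 → F)) (d : {l : J // l ≠ ks} → F) (k : G) :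
    rG ks G hG R d k = R d ⟨k, hG k.2⟩ := rfl

/-- the splitting of the rows -/
noncomputable def spl {J1 : Finset J} (ks : J) {G H : Finset J} (hG : G ⊆ J1) (hH : H ⊆ J1)
    (hGH : G ∪ H = J1) (hd : Disjoint G H) : (({l : J // l ≠ ks} → F) →ₗ[F] (J1 → F)) ≃
    (({l : J // l ≠ ks} → F) →ₗ[F] (G → F)) × (({l : J // l ≠ ks} → F) →ₗ[F] (H → F)) :=
  Equiv.ofBijective (fun R => (rG ks G hG R, rG ks H hH R)) (by
    constructor
    · intro R R' h
      have h1 : rG ks G hG R = rG ks G hG R' := congrArg Prod.fst h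
      have h2 : rG ks H hH R = rG ks H hH R' := congrArg Prod.snd h
      refine LinearMap.ext fun d => funext fun k => ?_
      have hk : (k : J) ∈ G ∪ H := by
        rw [hGH]
        exact k.2
      rcases mem_union.1 hk with hk | hk
      · have := congrFun (LinearMap.congr_fun h1 d) ⟨k, hk⟩
        exact this
      · have := congrFun (LinearMap.congr_fun h2 d) ⟨k, hk⟩
        exact this
    · rintro ⟨R1, R2⟩
      let R : ({l : J // l ≠ ks} → F) →ₗ[F] (J1 → F) :=
        { toFun := fun d k => if h : (k : J) ∈ G then R1 d ⟨k, h⟩ else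
            if h : (k : J) ∈ H then R2 d ⟨k, h⟩ else 0
          map_add' := fun d e => by
            funext k
            simp only [Pi.add_apply, map_add]
            split_ifs
            · rfl
            · rfl
            · rw [add_zero]
          map_smul' := fun a d => by
            funext k
            simp only [Pi.smul_apply, map_smul, RingHom.id_apply, smul_eq_mul]
            split_ifs
            · rfl
            · rfl
            · rw [mul_zero] }
      refine ⟨R, Prod.ext ?_ ?_⟩
      · refine LinearMap.ext fun d => funext fun k => ?_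
        show (if h : (k : J) ∈ G then R1 d ⟨k, h⟩ else _) = R1 d k
        rw [dif_pos k.2]
      · refine LinearMap.ext fun d => funext fun k => ?_
        have h1 : (k : J) ∉ G := fun h => disjoint_left.1 hd h k.2
        show (if h : (k : J) ∈ G then R1 d ⟨k, h⟩ else
          if h : (k : J) ∈ H then R2 d ⟨k, h⟩ else 0) = R2 d k
        rw [dif_neg h1, dif_pos k.2])

/-- rows that already give the injectivity -/
theorem few_rows (J1 : Finset J) (C : J → U → F) (n : ℕ) : ∀ N : Submodule F (U → F),
    finrank F N ≤ n →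
    (∀ w ∈ N, w ≠ 0 → ∃ k ∈ J1, ∑ u, w u * C k u ≠ 0) →
    ∃ G ⊆ J1, G.card ≤ n ∧ ∀ w ∈ N, (∀ k ∈ G, ∑ u, w u * C k u = 0) → w = 0 := by
  induction n with
  | zero =>
    intro N hN _
    refine ⟨∅, empty_subset _, le_rfl, fun w hw _ => ?_⟩
    have h0 : N = ⊥ := Submodule.finrank_eq_zero.1 (Nat.le_zero.1 hN)
    rw [h0] at hw
    exact (Submodule.mem_bot F).1 hw
  | succ n ih =>
    intro N hN h
    by_cases h0 : N = ⊥
    · refine ⟨∅, empty_subset _, Nat.zero_le _, fun w hw _ => ?_⟩
      rw [h0] at hw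
      exact (Submodule.mem_bot F).1 hw
    obtain ⟨x, hx, hx0⟩ := Submodule.exists_mem_ne_zero_of_ne_bot h0
    obtain ⟨k, hk, hkx⟩ := h x hx hx0
    let φ : (U → F) →ₗ[F] F :=
      { toFun := fun w => ∑ u, w u * C k u
        map_add' := fun w w' => by simp only [Pi.add_apply, add_mul, sum_add_distrib]
        map_smul' := fun a w => by
          simp only [Pi.smul_apply, smul_eq_mul, RingHom.id_apply, mul_sum]
          exact sum_congr rfl fun u _ => by ring }
    have hφ : ∀ w, φ w = ∑ u, w u * C k u := fun _ => rfl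
    have hlt : N ⊓ LinearMap.ker φ < N := by
      refine lt_of_le_of_ne inf_le_left fun he => ?_
      have : x ∈ N ⊓ LinearMap.ker φ := by
        rw [he]
        exact hx
      exact hkx (LinearMap.mem_ker.1 (Submodule.mem_inf.1 this).2)
    have hfr := Submodule.finrank_lt_finrank_of_lt hlt
    obtain ⟨G, hG, hGc, hG2⟩ := ih (N ⊓ LinearMap.ker φ) (by omega)
      (fun w hw hw0 => h w (Submodule.mem_inf.1 hw).1 hw0)
    refine ⟨insert k G, insert_subset hk hG, (card_insert_le _ _).trans (by omega), ?_⟩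
    intro w hw hw2
    refine hG2 w (Submodule.mem_inf.2 ⟨hw, LinearMap.mem_ker.2 (hw2 k (mem_insert_self _ _))⟩)
      fun k' hk' => hw2 k' (mem_insert_of_mem hk')

/-- the block system with a mask -/
theorem gdM_iff {J1 : Finset J} (m : U → F) (ks : J) (U1 : Finset U) (A : U → U → F)
    (B : U → J → F) (C : J → U → F) (hm : ∀ u, u ∉ U1 → m u ≠ 0) {G H : Finset J} (hG : G ⊆ J1)
    (hH : H ⊆ J1) (hGH : G ∪ H = J1) (α : prs J1 → F) :
    GdM m U1 J1 A B C (ext α) ↔ ∀ z : (U → F) × ({l : J // l ≠ ks} → F),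
      LL (mAm m U1 A B) (mBm m ks U1 B) (mCm m G C) (mDm m ks G C) (rG ks G hG (mT ks J1 α)) z = 0 →
      mCm m H C z.1 + (rG ks H hH (mT ks J1 α) + mDm m ks H C) z.2 = 0 → z = 0 := by
  -- the rows
  have row1 : ∀ (x : U → F) (d : {l : J // l ≠ ks} → F) (u : U1), m u ≠ 0 →
      mAm m U1 A B x u + mBm m ks U1 B d u =
      ∑ v, m v * (x v - x u) * A u v + ∑ l, (dt ks d l - x u) * B u l := by
    intro x d u hu
    show (if m u = 0 then x u else ∑ v, m v * (x v - x u) * A u v - ∑ l, x u * B u l) +
      (if m u = 0 then 0 else ∑ l, dt ks d l * B u l) = _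
    rw [if_neg hu, if_neg hu]
    simp only [sub_mul, sum_sub_distrib]
    ring
  have row0 : ∀ (x : U → F) (d : {l : J // l ≠ ks} → F) (u : U1), m u = 0 →
      mAm m U1 A B x u + mBm m ks U1 B d u = x u := by
    intro x d u hu
    show (if m u = 0 then x u else ∑ v, m v * (x v - x u) * A u v - ∑ l, x u * B u l) +
      (if m u = 0 then 0 else ∑ l, dt ks d l * B u l) = _
    rw [if_pos hu, if_pos hu, add_zero]
  have row2 : ∀ (x : U → F) (d : {l : J // l ≠ ks} → F) (k : J1),
      ∑ u, m u * x u * C k u + (mT ks J1 α d k + -(dt ks d k * ∑ u, m u * C k u)) =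
      ∑ u, m u * (x u - dt ks d k) * C k u +
        ∑ l, (dt ks d l - dt ks d k) * ext α k l := by
    intro x d k
    rw [mT_apply]
    have h : ∑ u, m u * (x u - dt ks d k) * C k u =
        ∑ u, m u * x u * C k u - dt ks d k * ∑ u, m u * C k u := by
      rw [mul_sum, ← sum_sub_distrib]
      exact sum_congr rfl fun _ _ => by ring
    rw [h]
    ring
  constructor
  · rintro hg ⟨x, d⟩ h1 h2
    have h1a : ∀ u : U1, mAm m U1 A B x u + mBm m ks U1 B d u = 0 := fun u =>
      congrFun (congrArg Prod.fst h1) u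
    have h1b : ∀ k : G, ∑ u, m u * x u * C k u + (mT ks J1 α d ⟨k, hG k.2⟩ +
        -(dt ks d k * ∑ u, m u * C k u)) = 0 := fun k => congrFun (congrArg Prod.snd h1) k
    have h2' : ∀ k : H, ∑ u, m u * x u * C k u + (mT ks J1 α d ⟨k, hH k.2⟩ +
        -(dt ks d k * ∑ u, m u * C k u)) = 0 := fun k => congrFun h2 k
    obtain ⟨t, ht1, ht2⟩ := hg x (dt ks d) (fun u hu hmu => by
        rw [← row1 x d ⟨u, hu⟩ hmu]
        exact h1a ⟨u, hu⟩) (fun k hk => by
        rw [← row2 x d ⟨k, hk⟩]
        have hk' := hk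
        rw [← hGH, mem_union] at hk'
        rcases hk' with hk' | hk'
        · exact h1b ⟨k, hk'⟩
        · exact h2' ⟨k, hk'⟩)
    have ht : t = 0 := by rw [← ht2 ks, dt_ks]
    refine Prod.ext (funext fun u => ?_) (funext fun l => ?_)
    · show x u = 0
      by_cases hu : m u = 0
      · have hu1 : u ∈ U1 := by
          by_contra hc
          exact hm u hc hu
        rw [← row0 x d ⟨u, hu1⟩ hu]
        exact h1a ⟨u, hu1⟩
      · rw [ht1 u hu, ht]
    · show d l = 0
      rw [← dt_of ks d l.2, ht2, ht]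
  · intro hg c d h1 h2
    have h3 : ∀ l, dt ks (fun l : {l : J // l ≠ ks} => d l - d ks) l = d l - d ks := by
      intro l
      by_cases h : l = ks
      · rw [h, dt_ks, sub_self]
      · rw [dt_of ks _ h]
    set x : U → F := fun u => if m u = 0 then 0 else c u - d ks with hx
    have hx1 : ∀ u, m u ≠ 0 → x u = c u - d ks := fun u hu => by
      simp only [hx]
      rw [if_neg hu]
    have hmx : ∀ v (a : F), m v * (x v - (a - d ks)) = m v * (c v - a) := by
      intro v a
      by_cases hv : m v = 0
      · rw [hv, zero_mul, zero_mul]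
      · rw [hx1 v hv, sub_sub_sub_cancel_right]
    have hz := hg (x, fun l => d l - d ks) (by
      refine Prod.ext (funext fun u => ?_) (funext fun k => ?_)
      · show mAm m U1 A B x u + mBm m ks U1 B (fun l => d l - d ks) u = 0
        by_cases hu : m u = 0
        · rw [row0 x _ u hu]
          simp only [hx]
          rw [if_pos hu]
        · rw [row1 x _ u hu]
          have h6 := h1 u u.2 hu
          simp only [h3, hx1 u hu, hmx, sub_sub_sub_cancel_right]
          exact h6
      · refine (row2 x (fun l => d l - d ks) ⟨k, hG k.2⟩).trans ?_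
        have h6 := h2 k (hG k.2)
        simp only [h3, hmx, sub_sub_sub_cancel_right]
        exact h6) (by
      refine funext fun k => ?_
      refine (row2 x (fun l => d l - d ks) ⟨k, hH k.2⟩).trans ?_
      have h6 := h2 k (hH k.2)
      simp only [h3, hmx, sub_sub_sub_cancel_right]
      exact h6)
    refine ⟨d ks, fun u hu => ?_, fun l => ?_⟩
    · have h7 : x u = 0 := congrFun (congrArg Prod.fst hz) u
      rw [hx1 u hu] at h7
      exact sub_eq_zero.1 h7
    · by_cases h : l = ks
      · rw [h]
      · have h7 := congrFun (congrArg Prod.snd hz) ⟨l, h⟩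
        exact sub_eq_zero.1 h7

lemma cop_surj (m : U → F) (ks : J) (U1 : Finset U) (A : U → U → F) (B : U → J → F)
    (h : ∀ v : U → F, (∃ u ∈ U1, v u ≠ 0) → ∃ l, l ≠ ks ∧ ∑ u ∈ U1, v u * B u l ≠ 0) :
    Surjective ((mAm m U1 A B).coprod (mBm m ks U1 B)) := by
  intro y
  obtain ⟨d, hd⟩ := mB_surj ks U1 B h y
  have hd' : ∀ u : U1, ∑ l, dt ks d l * B u l = y u := fun u => congrFun hd u
  set x : U → F := fun u => if hu : u ∈ U1 then if m u = 0 then y ⟨u, hu⟩ else 0 else 0 with hx
  have hx0 : ∀ u, m u ≠ 0 → x u = 0 := by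
    intro u hu
    simp only [hx]
    split_ifs
    · rfl
    · rfl
  refine ⟨(x, d), funext fun u => ?_⟩
  show (if m u = 0 then x u else ∑ v, m v * (x v - x u) * A u v - ∑ l, x u * B u l) +
      (if m u = 0 then 0 else ∑ l, dt ks d l * B u l) = y u
  by_cases hu : m u = 0
  · rw [if_pos hu, if_pos hu, add_zero]
    simp only [hx]
    rw [dif_pos u.2, if_pos hu]
  · rw [if_neg hu, if_neg hu, hd' u, hx0 u hu]
    have h1 : ∀ v, m v * x v = 0 := by
      intro v
      by_cases hv : m v = 0
      · rw [hv, zero_mul]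
      · rw [hx0 v hv, mul_zero]
    simp only [sub_zero, h1, zero_mul, sum_const_zero, zero_add]

lemma inj_x (m : U → F) (U1 : Finset U) (A : U → U → F) (B : U → J → F)
    (C : J → U → F) (hm : ∀ u, u ∉ U1 → m u ≠ 0) (G : Finset J)
    (hG : ∀ w : U → F, (∀ k ∈ G, ∑ u, w u * C k u = 0) → w = 0) (x : U → F)
    (h1 : mAm m U1 A B x = 0) (h2 : mCm m G C x = 0) : x = 0 := by
  have h3 : (fun u => m u * x u) = 0 := hG _ fun k hk => congrFun h2 ⟨k, hk⟩
  funext u
  by_cases hu : m u = 0
  · have hu1 : u ∈ U1 := by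
      by_contra hc
      exact hm u hc hu
    have h4 : (if m u = 0 then x u else ∑ v, m v * (x v - x u) * A u v - ∑ l, x u * B u l) = 0 :=
      congrFun h1 ⟨u, hu1⟩
    rw [if_pos hu] at h4
    exact h4
  · have h4 : m u * x u = 0 := congrFun h3 u
    exact (mul_eq_zero.1 h4).resolve_left hu

lemma sep_rank (m m' : U → F) (ks : J) (G : Finset J) (C : J → U → F) :
    (G.filter fun k => k ≠ ks ∧ ∑ u, (m u - m' u) * C k u ≠ 0).card ≤
      finrank F (LinearMap.range (mDm m ks G C - mDm m' ks G C)) := by
  set P := G.filter fun k => k ≠ ks ∧ ∑ u, (m u - m' u) * C k u ≠ 0 with hP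
  have hPG : ∀ k : P, (k : J) ∈ G := fun k => (mem_filter.1 k.2).1
  let ρ : (G → F) →ₗ[F] (P → F) := LinearMap.funLeft F F (fun k : P => (⟨k, hPG k⟩ : G))
  have hs : Surjective (ρ ∘ₗ (mDm m ks G C - mDm m' ks G C)) := by
    intro y
    set d : {l : J // l ≠ ks} → F := fun l => if hl : (l : J) ∈ P then
      -(y ⟨l, hl⟩) * (∑ u, (m u - m' u) * C l u)⁻¹ else 0 with hd
    refine ⟨d, funext fun k => ?_⟩
    have hk := mem_filter.1 k.2
    show -(dt ks d k * ∑ u, m u * C k u) - -(dt ks d k * ∑ u, m' u * C k u) = y k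
    have e1 : dt ks d k = -(y k) * (∑ u, (m u - m' u) * C k u)⁻¹ := by
      rw [dt_of ks d hk.2.1]
      simp only [hd]
      rw [dif_pos k.2]
    have e2 : ∑ u, (m u - m' u) * C k u = ∑ u, m u * C k u - ∑ u, m' u * C k u := by
      rw [← sum_sub_distrib]
      exact sum_congr rfl fun u _ => by ring
    have e3 : -(dt ks d k * ∑ u, m u * C k u) - -(dt ks d k * ∑ u, m' u * C k u) =
        -(dt ks d k * ∑ u, (m u - m' u) * C k u) := by
      rw [e2]
      ring
    rw [e3, e1, mul_assoc, inv_mul_cancel₀ hk.2.2]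
    ring
  have h1 : finrank F (P → F) ≤ finrank F (LinearMap.range (mDm m ks G C - mDm m' ks G C)) := by
    have h2 : LinearMap.range (ρ ∘ₗ (mDm m ks G C - mDm m' ks G C)) = ⊤ :=
      LinearMap.range_eq_top.2 hs
    rw [LinearMap.range_comp] at h2
    have h3 := Submodule.finrank_map_le ρ (LinearMap.range (mDm m ks G C - mDm m' ks G C))
    rw [h2, finrank_top] at h3
    exact h3
  rw [finrank_fintype_fun_eq_card, Fintype.card_coe] at h1
  exact h1

end Pool.Agent.X253.JC
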